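import Mathlib
import Pool.Agent.Lib.H55R.D5

/-!
Chunk D1 (M). Primes of degree greater than one are negligible.
PROOF. If N v is not prime then N v ≥ p² for the prime number p below v (N v = p^f, f ≥ 2), so N v^(-s) ≤ p^(-2s) ≤ p^(-2) for s ≥ 1, and at most [K:ℚ] primes lie above p. So the sum over any finite
set of such primes is at most [K:ℚ] sum_p p^(-2) = C (Real.summable_one_div_nat_pow); hence PS ≤ C (tsum_le_of_sum_le). Compare H55R.D5 (split_cmp), where the same estimate is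
made; it may contain a lemma which can be cited.
stab_triv: absNorm Q prime gives fs F L (Q.under) = 1 (absNorm Q = absNorm(v)^f: H55R.D5_norm), with es = 1 the stabiliser is trivial (card_stab), so σ ↦ smulP σ Q is injective.
-/

open NumberField IsDedekindDomain

namespace H99B

open H55B H55R

section d1

variable {K : Type} [Field K] [NumberField K]

theorem d1_pow (v : Pl K) : ∃ q f : ℕ, q.Prime ∧ 0 < f ∧ Ideal.absNorm v.asIdeal = q ^ f ∧
    (q : 𝓞 K) ∈ v.asIdeal := by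
  have hm : v.asIdeal.IsMaximal := v.isMaximal
  have h0 : Ideal.absNorm v.asIdeal ≠ 0 := fun h => v.ne_bot (Ideal.absNorm_eq_zero_iff.1 h)
  let _ : Field (𝓞 K ⧸ v.asIdeal) := Ideal.Quotient.field v.asIdeal
  have hfin : Finite (𝓞 K ⧸ v.asIdeal) := by
    apply Nat.finite_of_card_ne_zero
    exact h0
  let _ : Fintype (𝓞 K ⧸ v.asIdeal) := Fintype.ofFinite _
  obtain ⟨q, hq⟩ := CharP.exists (𝓞 K ⧸ v.asIdeal)
  obtain ⟨n, hp, hc⟩ := FiniteField.card (𝓞 K ⧸ v.asIdeal) q
  refine ⟨q, n, hp, n.pos, ?_, ?_⟩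
  · show Nat.card (𝓞 K ⧸ v.asIdeal) = _
    rw [Nat.card_eq_fintype_card, hc]
  · rw [← Ideal.Quotient.eq_zero_iff_mem, map_natCast]
    exact CharP.cast_eq_zero _ q

/-- The primes above a rational prime. -/
theorem d1_count (q : ℕ) (hq : q.Prime) (U : Finset (Pl K))
    (hU : ∀ v ∈ U, (q : 𝓞 K) ∈ v.asIdeal) (hU2 : ∀ v ∈ U, q ≤ Ideal.absNorm v.asIdeal) :
    U.card ≤ Module.finrank ℚ K := by
  classical
  have h1 : ∏ v ∈ U, v.asIdeal ∣ Ideal.span {(q : 𝓞 K)} := by
    apply Finset.prod_dvd_of_coprime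
    · intro v _ w _ hvw
      refine Ideal.isCoprime_of_isMaximal ?_
      intro h
      exact hvw (HeightOneSpectrum.ext h)
    · intro v hv
      rw [Ideal.dvd_span_singleton]
      exact hU v hv
  have h2 := map_dvd Ideal.absNorm h1
  rw [map_prod] at h2
  have h3 : Ideal.absNorm (Ideal.span {(q : 𝓞 K)}) = q ^ Module.finrank ℚ K := by
    rw [Ideal.absNorm_span_singleton]
    have h4 := Algebra.norm_algebraMap (S := 𝓞 K) (q : ℤ)
    rw [map_natCast, RingOfIntegers.rank] at h4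
    rw [h4, Int.natAbs_pow, Int.natAbs_natCast]
  rw [h3] at h2
  have h5 : ∏ v ∈ U, q ≤ ∏ v ∈ U, Ideal.absNorm v.asIdeal := Finset.prod_le_prod' hU2
  rw [Finset.prod_const] at h5
  have h6 := Nat.le_of_dvd (pow_pos hq.pos _) h2
  exact (Nat.pow_le_pow_iff_right hq.one_lt).1 (h5.trans h6)

theorem d1_norm (q : ℕ) :
    Ideal.absNorm (Ideal.span {(q : 𝓞 K)}) = q ^ Module.finrank ℚ K := by
  rw [Ideal.absNorm_span_singleton]
  have h4 := Algebra.norm_algebraMap (S := 𝓞 K) (q : ℤ)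
  rw [map_natCast, RingOfIntegers.rank] at h4
  rw [h4, Int.natAbs_pow, Int.natAbs_natCast]

theorem d1_one_le (v : Pl K) : (1 : ℝ) ≤ (Ideal.absNorm v.asIdeal : ℝ) := by
  have h0 : Ideal.absNorm v.asIdeal ≠ 0 := fun h => v.ne_bot (Ideal.absNorm_eq_zero_iff.1 h)
  exact_mod_cast Nat.one_le_iff_ne_zero.2 h0

theorem d1_summable (s : ℝ) (hs : 1 < s) :
    Summable fun v : Pl K => (Ideal.absNorm v.asIdeal : ℝ) ^ (-s) :=
  (H55N.ideal_summable (K := K) s hs).comp_injective (i := fun v : Pl K => v.asIdeal)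
    fun _ _ h => HeightOneSpectrum.ext h

theorem d1_sum (S : Set (Pl K)) (s : ℝ) (hs : 1 < s) :
    Summable (S.indicator fun v : Pl K => (Ideal.absNorm v.asIdeal : ℝ) ^ (-s)) :=
  (d1_summable s hs).indicator S

theorem d1_mono {S T : Set (Pl K)} (h : S ⊆ T) (s : ℝ) (hs : 1 < s) :
    PS S s ≤ PS T s := by
  unfold PS
  refine (d1_sum S s hs).tsum_le_tsum (fun v => ?_) (d1_sum T s hs)
  exact Set.indicator_le_indicator_of_subset h (fun v => by positivity) v

theorem d1_nonneg (S : Set (Pl K)) (s : ℝ) : 0 ≤ PS S s := by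
  unfold PS
  exact tsum_nonneg fun v => Set.indicator_nonneg (fun v _ => by positivity) v

theorem d1_union (S T : Set (Pl K)) (s : ℝ) (hs : 1 < s) :
    PS (S ∪ T) s ≤ PS S s + PS T s := by
  have h1 : PS (S ∪ T) s + PS (S ∩ T) s = PS S s + PS T s := by
    unfold PS
    rw [← (d1_sum (S ∪ T) s hs).tsum_add (d1_sum (S ∩ T) s hs),
      ← (d1_sum S s hs).tsum_add (d1_sum T s hs)]
    exact tsum_congr fun v => Set.indicator_union_add_inter_apply _ S T v
  have h2 := d1_nonneg (S ∩ T) s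
  linarith

theorem d1_fin {S : Set (Pl K)} (hS : S.Finite) (s : ℝ) (hs : 1 < s) :
    PS S s ≤ hS.toFinset.card := by
  unfold PS
  rw [tsum_eq_sum (s := hS.toFinset) fun v hv => by
    rw [Set.indicator_of_notMem]
    exact fun h => hv (hS.mem_toFinset.2 h)]
  have h1 : ∀ v ∈ hS.toFinset, S.indicator (fun v : Pl K => (Ideal.absNorm v.asIdeal : ℝ) ^ (-s)) v ≤
      1 := by
    intro v hv
    rw [Set.indicator_of_mem (hS.mem_toFinset.1 hv)]
    apply Real.rpow_le_one_of_one_le_of_nonpos (d1_one_le v)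
    linarith
  calc _ ≤ ∑ v ∈ hS.toFinset, (1 : ℝ) := Finset.sum_le_sum h1
    _ = _ := by simp

/-- The primes whose norm is not a prime number. -/
theorem d1_np : ∃ C : ℝ, ∀ s : ℝ, 1 < s →
    PS {v : Pl K | ¬ (Ideal.absNorm v.asIdeal).Prime} s ≤ C := by
  classical
  have hz : Summable fun q : ℕ => (Module.finrank ℚ K : ℝ) * ((q : ℝ) ^ 2)⁻¹ :=
    (Real.summable_nat_pow_inv.2 one_lt_two).mul_left _
  refine ⟨∑' q : ℕ, (Module.finrank ℚ K : ℝ) * ((q : ℝ) ^ 2)⁻¹, fun s hs => ?_⟩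
  unfold PS
  refine (d1_sum _ s hs).tsum_le_of_sum_le fun U => ?_
  choose q f hq hf hn hm using fun v : Pl K => d1_pow v
  have h1 : ∑ v ∈ U, ({v : Pl K | ¬ (Ideal.absNorm v.asIdeal).Prime}.indicator
      (fun v => (Ideal.absNorm v.asIdeal : ℝ) ^ (-s))) v =
      ∑ r ∈ U.image q, ∑ v ∈ U with q v = r, ({v : Pl K | ¬ (Ideal.absNorm v.asIdeal).Prime}.indicator
      (fun v => (Ideal.absNorm v.asIdeal : ℝ) ^ (-s))) v := by
    rw [Finset.sum_fiberwise_of_maps_to]
    intro v hv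
    exact Finset.mem_image_of_mem q hv
  rw [h1]
  have h2 : ∀ v : Pl K, ({v : Pl K | ¬ (Ideal.absNorm v.asIdeal).Prime}.indicator
      (fun v => (Ideal.absNorm v.asIdeal : ℝ) ^ (-s))) v ≤ ((q v : ℝ) ^ 2)⁻¹ := by
    intro v
    by_cases hv : (Ideal.absNorm v.asIdeal).Prime
    · rw [Set.indicator_of_notMem (show v ∉ {v : Pl K | ¬ (Ideal.absNorm v.asIdeal).Prime} from
        fun h => h hv)]
      positivity
    · rw [Set.indicator_of_mem (show v ∈ {v : Pl K | ¬ (Ideal.absNorm v.asIdeal).Prime} from hv)]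
      have h3 : 2 ≤ f v := by
        by_contra h4
        have h5 : f v = 1 := by
          have := hf v
          omega
        apply hv
        rw [hn v, h5, pow_one]
        exact hq v
      have h6 : (Ideal.absNorm v.asIdeal : ℝ) ^ (-s) ≤ (Ideal.absNorm v.asIdeal : ℝ) ^ (-(1 : ℝ)) :=
        Real.rpow_le_rpow_of_exponent_le (d1_one_le v) (by linarith)
      refine h6.trans ?_
      rw [Real.rpow_neg_one, hn v]
      have hq1 : (1 : ℝ) ≤ (q v : ℝ) := by exact_mod_cast (hq v).one_lt.le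
      push_cast
      apply inv_anti₀ (by positivity)
      exact pow_le_pow_right₀ hq1 h3
  have h3 : ∀ r ∈ U.image q, ∑ v ∈ U with q v = r, ({v : Pl K | ¬ (Ideal.absNorm v.asIdeal).Prime}.indicator
      (fun v => (Ideal.absNorm v.asIdeal : ℝ) ^ (-s))) v ≤ (Module.finrank ℚ K : ℝ) * ((r : ℝ) ^ 2)⁻¹ := by
    intro r hr
    obtain ⟨v₀, -, hv₀⟩ := Finset.mem_image.1 hr
    have hrp : r.Prime := hv₀ ▸ hq v₀
    have h4 : ∀ v ∈ U.filter (fun v => q v = r), ({v : Pl K | ¬ (Ideal.absNorm v.asIdeal).Prime}.indicator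
      (fun v => (Ideal.absNorm v.asIdeal : ℝ) ^ (-s))) v ≤ ((r : ℝ) ^ 2)⁻¹ := by
      intro v hv
      have h5 := h2 v
      rw [(Finset.mem_filter.1 hv).2] at h5
      exact h5
    refine (Finset.sum_le_sum h4).trans ?_
    rw [Finset.sum_const, nsmul_eq_mul]
    refine mul_le_mul_of_nonneg_right ?_ (by positivity)
    have h6 : (U.filter (fun v => q v = r)).card ≤ Module.finrank ℚ K := by
      apply d1_count r hrp
      · intro v hv
        have h7 := hm v
        rw [(Finset.mem_filter.1 hv).2] at h7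
        exact h7
      · intro v hv
        have h7 := hn v
        rw [(Finset.mem_filter.1 hv).2] at h7
        rw [h7]
        exact Nat.le_self_pow (hf v).ne' r
    exact_mod_cast h6
  refine (Finset.sum_le_sum h3).trans ?_
  exact hz.sum_le_tsum _ fun r _ => by positivity

end d1

theorem deg_bound (K : Type) [Field K] [NumberField K] :
    ∃ C : ℝ, ∀ s ∈ Set.Ioc (1 : ℝ) 2, PS {v : Pl K | ¬ (Ideal.absNorm v.asIdeal).Prime} s ≤ C := by
  obtain ⟨C, hC⟩ := d1_np (K := K)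
  exact ⟨C, fun s hs => hC s hs.1⟩

theorem stab_triv {K L : Type} [Field K] [NumberField K] [Field L] [NumberField L] [Algebra K L]
    [IsGalois K L] (Q : Pl L) (hQ : (Ideal.absNorm Q.asIdeal).Prime)
    (he : es K L (Q.under (𝓞 K)) = 1) : Function.Injective fun σ : Gal(L/K) => smulP σ Q := by
  have h1 := D5_norm (Q.under (𝓞 K)) Q rfl
  have hf : fs K L (Q.under (𝓞 K)) = 1 := by
    rw [h1] at hQ
    by_contra hne
    exact Nat.Prime.not_prime_pow' hne hQ
  have h2 := card_stab Q (Q.under (𝓞 K)) rfl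
  rw [he, hf, mul_one, Nat.card_eq_one_iff_unique] at h2
  have h3 := h2.1
  intro σ τ hστ
  have h4 : smulP (τ⁻¹ * σ) Q = Q := by
    rw [smulP_mul]
    have h5 : smulP σ Q = smulP τ Q := hστ
    rw [h5, ← smulP_mul, inv_mul_cancel, smulP_one]
  have h6 : (⟨τ⁻¹ * σ, h4⟩ : {σ : Gal(L/K) // smulP σ Q = Q}) = ⟨1, smulP_one Q⟩ := Subsingleton.elim _ _
  have h7 := congrArg Subtype.val h6
  exact (inv_mul_eq_one.1 h7).symm

end H99B
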