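import Mathlib
import Pool.Agent.Lib.H55R.HA11
import Pool.Agent.Lib.H55R.HA5
import Pool.Agent.Lib.H99B.Defs

/-!
Chunk C1 (M). The group of divisors and the class group with the action of the Galois group.
Div = Pl L →₀ ℤ. divF x = the divisor of x (finite support: H55R.HA11_finite). gD σ = Finsupp.mapDomain (smulP σ) (a monoid homomorphism by smulP_mul, smulP_one;
mapDomain_comp). gD_div: gD σ (divF x) = divF (gu σ x): at smulP σ v both are ord v x (mapDomain_apply with the injectivity of smulP σ, ord_smul; every prime is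
smulP σ v). gD_apply: value at smulP σ v.
fin_class: the quotient of Div by the principal divisors is finite: the additive map Div → Additive (ClassGroup (𝓞 L)) sending the basis vector of v to the class
of v.asIdeal (ClassGroup.mk0) has kernel contained in the principal divisors: for D = D1 - D2 with D1, D2 ≥ 0 in the kernel, the ideals a1, a2 (products of primes) have the same
class, so x a1 = y a2 with integers x, y (ClassGroup.mk0_eq_mk0_iff), and D = div(y/x) (counting orders; ord of an integral element is the multiplicity in its ideal: H55R.ord_int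
or HA5_ord). So Div / principal injects into the finite ClassGroup (or: it is a quotient of .. choose what is easiest; one can also prove that the index of the range of divF is
not 0 by AddSubgroup.index / AddMonoidHom.ker, index_ker, index_antitone).
-/

open NumberField IsDedekindDomain

namespace H99B

open H55B H55R

variable {L : Type} [Field L] [NumberField L]

/-- The divisor of an element. -/
noncomputable def divF : Additive Lˣ →+ (Pl L →₀ ℤ) where
  toFun x := Finsupp.ofSupportFinite (fun v => ord v x.toMul) (HA11_finite x.toMul)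
  map_zero' := by
    ext v
    exact ord_one v
  map_add' x y := by
    ext v
    exact ord_mul v x.toMul y.toMul

theorem divF_apply (x : Lˣ) (v : Pl L) : divF (Additive.ofMul x) v = ord v x := rfl

open scoped nonZeroDivisors

/-- The fractional ideal of a prime. -/
noncomputable def c1_U (v : Pl L) : (FractionalIdeal (𝓞 L)⁰ L)ˣ :=
  Units.mk0 (v.asIdeal : FractionalIdeal (𝓞 L)⁰ L) (FractionalIdeal.coeIdeal_ne_zero.mpr v.ne_bot)

/-- The class of a divisor. -/
noncomputable def c1_phi : (Pl L →₀ ℤ) →+ Additive (ClassGroup (𝓞 L)) where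
  toFun D := Additive.ofMul (ClassGroup.mk (K := L) (D.prod fun v n => c1_U v ^ n))
  map_zero' := by
    rw [Finsupp.prod_zero_index, map_one]
    rfl
  map_add' D D' := by
    rw [Finsupp.prod_add_index' (fun v => zpow_zero _) (fun v m n => zpow_add _ _ _), map_mul]
    rfl

theorem c1_coe (D : Pl L →₀ ℤ) : (((D.prod fun v n => c1_U v ^ n : (FractionalIdeal (𝓞 L)⁰ L)ˣ)) :
    FractionalIdeal (𝓞 L)⁰ L) = D.prod fun v n => ((v.asIdeal : FractionalIdeal (𝓞 L)⁰ L)) ^ n := by
  unfold Finsupp.prod
  rw [Units.coe_prod]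
  refine Finset.prod_congr rfl fun v _ => ?_
  rw [Units.val_zpow_eq_zpow_val]
  rfl

open Classical in
theorem c1_count (v : Pl L) (x : Lˣ) :
    FractionalIdeal.count L v (FractionalIdeal.spanSingleton (𝓞 L)⁰ (x : L)) = ord v x := by
  obtain ⟨a, b, hb, hab⟩ := IsFractionRing.div_surjective (A := 𝓞 L) (x : L)
  have hinj : Function.Injective (algebraMap (𝓞 L) L) := IsFractionRing.injective (𝓞 L) L
  have hb0 : b ≠ 0 := nonZeroDivisors.ne_zero hb
  have ha0 : a ≠ 0 := by
    rintro rfl
    rw [map_zero, zero_div] at hab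
    exact x.ne_zero hab.symm
  have hab0 : algebraMap (𝓞 L) L a ≠ 0 := by rwa [Ne, map_eq_zero_iff _ hinj]
  have hbb0 : algebraMap (𝓞 L) L b ≠ 0 := by rwa [Ne, map_eq_zero_iff _ hinj]
  have h1 : FractionalIdeal.spanSingleton (𝓞 L)⁰ (x : L) =
      FractionalIdeal.spanSingleton (𝓞 L)⁰ ((algebraMap (𝓞 L) L b))⁻¹ * ((Ideal.span {a} : Ideal (𝓞 L)) : FractionalIdeal (𝓞 L)⁰ L) := by
    rw [FractionalIdeal.coeIdeal_span_singleton, FractionalIdeal.spanSingleton_mul_spanSingleton, ← hab, div_eq_inv_mul]
  have h0 : FractionalIdeal.spanSingleton (𝓞 L)⁰ (x : L) ≠ 0 :=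
    FractionalIdeal.spanSingleton_ne_zero_iff.2 x.ne_zero
  rw [FractionalIdeal.count_well_defined L v h0 h1]
  have e1 := HA5_ord v (Units.mk0 _ hab0) a ha0 rfl
  have e2 := HA5_ord v (Units.mk0 _ hbb0) b hb0 rfl
  have e3 : x * Units.mk0 _ hbb0 = Units.mk0 _ hab0 := by
    ext
    change (x : L) * algebraMap (𝓞 L) L b = algebraMap (𝓞 L) L a
    rw [← hab, div_mul_cancel₀ _ hbb0]
  have e4 := ord_mul v x (Units.mk0 _ hbb0)
  rw [e3, e1, e2] at e4
  linarith

theorem fin_class : Finite ((Pl L →₀ ℤ) ⧸ (divF (L := L)).range) := by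
  classical
  have hle : (c1_phi (L := L)).ker ≤ (divF (L := L)).range := by
    intro D hD
    rw [AddMonoidHom.mem_ker] at hD
    have h1 : ClassGroup.mk (K := L) (D.prod fun v n => c1_U v ^ n) = 1 := hD
    rw [ClassGroup.mk_eq_one_iff, FractionalIdeal.isPrincipal_iff] at h1
    obtain ⟨x, hx⟩ := h1
    have hx0 : x ≠ 0 := by
      rintro rfl
      rw [FractionalIdeal.spanSingleton_zero] at hx
      exact Units.ne_zero _ hx
    refine ⟨Additive.ofMul (Units.mk0 x hx0), ?_⟩
    ext v
    rw [divF_apply, ← c1_count v (Units.mk0 x hx0), Units.val_mk0, ← hx, c1_coe]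
    exact FractionalIdeal.count_finsuppProd L v D
  have h2 : (c1_phi (L := L)).ker.FiniteIndex := inferInstance
  have h3 : (divF (L := L)).range.FiniteIndex := AddSubgroup.finiteIndex_of_le hle
  infer_instance

variable [Algebra F L]

/-- The Galois action on the divisors. -/
noncomputable def gD : Gal(L/F) →* AddMonoid.End (Pl L →₀ ℤ) where
  toFun σ := Finsupp.mapDomain.addMonoidHom (smulP σ)
  map_one' := by
    refine AddMonoidHom.ext fun D => ?_
    change Finsupp.mapDomain (smulP (1 : Gal(L/F))) D = D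
    have h : (smulP (1 : Gal(L/F)) : Pl L → Pl L) = id := funext fun v => smulP_one v
    rw [h, Finsupp.mapDomain_id]
  map_mul' σ τ := by
    refine AddMonoidHom.ext fun D => ?_
    change Finsupp.mapDomain (smulP (σ * τ)) D = Finsupp.mapDomain (smulP σ) (Finsupp.mapDomain (smulP τ) D)
    have h : (smulP (σ * τ) : Pl L → Pl L) = smulP σ ∘ smulP τ := funext fun v => smulP_mul σ τ v
    rw [h, Finsupp.mapDomain_comp]

theorem c1_inj (σ : Gal(L/F)) : Function.Injective (smulP σ : Pl L → Pl L) := by
  intro v w h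
  have h1 := congrArg (smulP σ⁻¹) h
  rwa [← smulP_mul, ← smulP_mul, inv_mul_cancel, smulP_one, smulP_one] at h1

theorem gD_apply (σ : Gal(L/F)) (D : Pl L →₀ ℤ) (v : Pl L) : gD σ D (smulP σ v) = D v :=
  Finsupp.mapDomain_apply (c1_inj σ) D v

theorem gD_single (σ : Gal(L/F)) (v : Pl L) (n : ℤ) :
    gD σ (Finsupp.single v n) = Finsupp.single (smulP σ v) n :=
  Finsupp.mapDomain_single

theorem gD_div (σ : Gal(L/F)) (x : Lˣ) :
    gD σ (divF (Additive.ofMul x)) = divF (Additive.ofMul (gu σ x)) := by
  ext v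
  have h1 : v = smulP σ (smulP σ⁻¹ v) := by rw [← smulP_mul, mul_inv_cancel, smulP_one]
  rw [h1, gD_apply, divF_apply, divF_apply]
  exact (ord_smul σ (smulP σ⁻¹ v) x).symm

end H99B
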