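import Mathlib
import Pool.Agent.Lib.H99B.Defs
import Pool.Agent.Lib.H55R.HA7
import Pool.Agent.Lib.H55R.HA5
import Pool.Agent.Lib.H55R.BF1

/-!
Chunk B3 (M). The Minkowski unit. L/F Galois, F = Q(om) has exactly one infinite place, which is complex.
PROOF. Fix an infinite place V0 of L. H55R.unit_place gives a unit y with V y < 1 for all V ≠ V0; z = its image in Lˣ (ord v z = 0: HA7_ord_unit).
The Galois group Gal(L/F) acts on the infinite places (σ • V), transitively on those above a place of F (NumberField.InfinitePlace.exists_smul_eq_of_comap_eq or the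
like; F has only one place: card (InfinitePlace F) = nrRealPlaces + nrComplexPlaces = 0 + 1, IsCyclotomicExtension.Rat.nrComplexPlaces_eq_totient_div_two for n = 3, or
Fintype.card_eq from finrank 2 and no real place), and simply: |Gal(L/F)| = [L:F] and L has exactly [L:F] infinite places (all complex: complexF, finrank_eq: 2 r2 = [L:Q] = 2 [L:F]).
So σ ↦ σ • V0 is a bijection. For T = ∅ define η (inr (σ • V0)) = gu σ z. Then Eta ∅ η: ord v (gu σ z) = 0 (ord_smul), and V' (gu σ z) = (σ⁻¹ • V') z < 1 for
V' ≠ σ • V0 (InfinitePlace.smul_apply: (σ • V) x = V (σ⁻¹ x)). H55R.theta_index for T = ∅: the range of Th has finite nonzero relative index n in (TUa ∅) × Z;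
for a unit u: n • (u, 0) is in the range (the relative index kills the quotient: AddSubgroup.relIndex, pow_mem / nsmul_mem of index; for an additive commutative group:
AddSubgroup.nsmul_index_mem): n u = sum_V a_V η_V, i.e. u^n = prod_σ (gu σ z)^(a (σ • V0)). So even u ^ n = pw gu α z. n = that relative index.
-/

open NumberField IsDedekindDomain

namespace H99B

open H55B H55R

theorem b3_rankF : Module.finrank ℚ F = 2 := by
  have h := IsCyclotomicExtension.finrank (n := 3) F
    (Polynomial.cyclotomic.irreducible_rat (by norm_num))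
  rw [h]
  decide

theorem b3_sub : Subsingleton (InfinitePlace F) := by
  have h1 : InfinitePlace.nrRealPlaces F = 0 :=
    IsCyclotomicExtension.Rat.nrRealPlaces_eq_zero (n := 3) F (by norm_num)
  have h2 := InfinitePlace.card_add_two_mul_card_eq_rank F
  have h3 := b3_rankF
  have h4 := InfinitePlace.card_eq_nrRealPlaces_add_nrComplexPlaces F
  have h5 : Fintype.card (InfinitePlace F) ≤ 1 := by omega
  exact Fintype.card_le_one_iff_subsingleton.1 h5

theorem b3_cpx (K : Type) [Field K] [NumberField K] [Algebra F K] (v : InfinitePlace K) :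
    v.IsComplex := by
  classical
  rw [← InfinitePlace.not_isReal_iff_isComplex]
  intro h
  have h1 : (v.comap (algebraMap F K)).IsReal := h.comap (algebraMap F K)
  have h2 : InfinitePlace.nrRealPlaces F = 0 :=
    IsCyclotomicExtension.Rat.nrRealPlaces_eq_zero (n := 3) F (by norm_num)
  have h3 : 0 < InfinitePlace.nrRealPlaces F := Fintype.card_pos_iff.2 ⟨⟨_, h1⟩⟩
  omega

theorem b3_card (L : Type) [Field L] [NumberField L] [Algebra F L] :
    Fintype.card (InfinitePlace L) = Module.finrank F L := by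
  classical
  have h0 : InfinitePlace.nrRealPlaces L = 0 := by
    rw [InfinitePlace.nrRealPlaces, Fintype.card_eq_zero_iff]
    exact ⟨fun v => (InfinitePlace.not_isReal_iff_isComplex.2 (b3_cpx L v.1)) v.2⟩
  have h2 := InfinitePlace.card_add_two_mul_card_eq_rank L
  have h4 := InfinitePlace.card_eq_nrRealPlaces_add_nrComplexPlaces L
  have h5 := Module.finrank_mul_finrank ℚ F L
  rw [b3_rankF] at h5
  omega

theorem minkowski (L : Type) [Field L] [NumberField L] [Algebra F L] [IsGalois F L] :
    ∃ (z : Lˣ) (n : ℕ), 0 < n ∧ (∀ v : Pl L, ord v z = 0) ∧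
      ∀ u : Lˣ, (∀ v : Pl L, ord v u = 0) → ∃ α : Gal(L/F) → ℤ, u ^ n = pw gu α z := by
  classical
  obtain ⟨V0⟩ : Nonempty (InfinitePlace L) := inferInstance
  obtain ⟨y, hy⟩ := unit_place L V0
  set z : Lˣ := Units.map (algebraMap (𝓞 L) L : 𝓞 L →* L) y with hzd
  have hz : ∀ v : Pl L, ord v z = 0 := HA7_ord_unit y
  have hsub := b3_sub
  have hbij : Function.Bijective (fun σ : Gal(L/F) => σ • V0) := by
    rw [Fintype.bijective_iff_surjective_and_card]
    refine ⟨fun V => InfinitePlace.exists_smul_eq_of_comap_eq (Subsingleton.elim _ _), ?_⟩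
    rw [b3_card L, ← IsGalois.card_aut_eq_finrank, Nat.card_eq_fintype_card]
  let e : Gal(L/F) ≃ InfinitePlace L := Equiv.ofBijective _ hbij
  have he : ∀ σ : Gal(L/F), e σ = σ • V0 := fun σ => rfl
  let η : (∅ : Finset (Pl L)) ⊕ InfinitePlace L → Additive Lˣ :=
    Sum.elim (fun _ => 0) (fun V => Additive.ofMul (gu (e.symm V) z))
  have hη : Eta ∅ η := by
    constructor
    · rintro ⟨W, hW⟩
      exact absurd hW (Finset.notMem_empty W)
    · intro V
      set σ := e.symm V with hσ
      have hV : V = σ • V0 := by rw [← he, hσ, Equiv.apply_symm_apply]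
      constructor
      · intro W
        show ord W (gu σ z) = 0
        have h1 := ord_smul σ (smulP σ⁻¹ W) z
        rw [← smulP_mul, mul_inv_cancel, smulP_one] at h1
        have h2 : ord W (gu σ z) = ord (smulP σ⁻¹ W) z := h1
        rw [h2, hz]
      · intro V' hV'
        show V' (σ (z : L)) < 1
        have h1 : σ⁻¹ • V' ≠ V0 := by
          intro h2
          apply hV'
          rw [hV, ← h2, smul_inv_smul]
        have h2 := hy _ h1
        rw [InfinitePlace.smul_apply] at h2
        exact h2
  have hidx := theta_index ∅ η hη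
  refine ⟨z, _, Nat.pos_of_ne_zero hidx, hz, ?_⟩
  intro u hu
  have hmem : ((Additive.ofMul u, 0) : Additive Lˣ × ℤ) ∈ (TUa (∅ : Finset (Pl L))).prod (⊤ : AddSubgroup ℤ) := by
    rw [AddSubgroup.mem_prod]
    exact ⟨fun v _ => hu v, trivial⟩
  have h1 : (Th ∅ η).range.relIndex ((TUa ∅).prod (⊤ : AddSubgroup ℤ)) • ((Additive.ofMul u, 0) : Additive Lˣ × ℤ) ∈ (Th ∅ η).range := by
    have h2 := AddSubgroup.nsmul_index_mem ((Th ∅ η).range.addSubgroupOf ((TUa ∅).prod (⊤ : AddSubgroup ℤ)))
      ⟨((Additive.ofMul u, 0) : Additive Lˣ × ℤ), hmem⟩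
    exact AddSubgroup.mem_addSubgroupOf.1 h2
  obtain ⟨a, ha⟩ := h1
  refine ⟨fun σ => a (Sum.inr (e σ)), ?_⟩
  have h2 := congrArg Prod.fst ha
  have h3 : (∑ p, a p • η p) = (Th ∅ η).range.relIndex ((TUa ∅).prod (⊤ : AddSubgroup ℤ)) • Additive.ofMul u := h2
  rw [Fintype.sum_sum_type, Finset.univ_eq_empty, Finset.sum_empty, zero_add, ← e.sum_comp] at h3
  apply Additive.ofMul.injective
  rw [ofMul_pow, ← h3]
  unfold pw
  rw [ofMul_prod]
  refine Finset.sum_congr rfl fun σ _ => ?_
  show a (Sum.inr (e σ)) • Additive.ofMul (gu (e.symm (e σ)) z) = _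
  rw [Equiv.symm_apply_apply]
  rfl

end H99B
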