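import Mathlib
import Pool.Agent.Lib.H99B.A2

/-!
Chunk A4 (M). The dimension lemma. G is commutative because χ is injective.
PROOF by strong induction on n, for all x, y, α, β. Write = for equality up to elements of finite order (they form a subgroup stable under pw, pw_fin).
Case chs α ≠ 0 or chs β ≠ 0: take γ = β, γ' = α, w = 1: (pw β x)^n = pw β (x^n) = pw β (pw α z) = pw α (pw β z) = (pw α y)^n, so
(pw β x / pw α y)^n has finite order, hence pw β x / pw α y too (n > 0).
Case chs α = chs β = 0: ε = cf χ ρ (-1) (chs ε = 1 by chs_nn), conv ε α = l α', conv ε β = l β' (el_conv), so (pw ε x)^n = pw (conv ε α) z = (pw α' z)^l,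
(pw ε y)^n = (pw β' z)^l. If n = l n1 (n1 < n, n1 > 0): ((pw ε x)^n1 / pw α' z)^l has finite order, so (pw ε x)^n1 = pw α' z, the same for y: the induction
hypothesis for (pw ε x, pw ε y, n1, α', β') gives γ, γ', w; then conv γ ε, conv γ' ε do for x, y (chs_conv, chs ε = 1). If l does not divide n: u n + v l = 1:
pw ε x = (pw ε x)^(u n) (pw ε x)^(v l) = ((pw α' z)^u (pw ε x)^v)^l: take γ = ε, γ' = 0 (pw 0 y = 1, chs 0 = 0).
-/

namespace H99B

/-- Equality up to elements of finite order. -/
theorem a4_trans {A : Type} [CommGroup A] {x y z : A} (h1 : IsOfFinOrder (x * y⁻¹)) (h2 : IsOfFinOrder (y * z⁻¹)) :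
    IsOfFinOrder (x * z⁻¹) := by
  have h := Subgroup.mul_mem (CommGroup.torsion A) h1 h2
  have e : x * y⁻¹ * (y * z⁻¹) = x * z⁻¹ := by group
  rwa [e] at h

theorem a4_symm {A : Type} [CommGroup A] {x y : A} (h1 : IsOfFinOrder (x * y⁻¹)) : IsOfFinOrder (y * x⁻¹) := by
  have h := Subgroup.inv_mem (CommGroup.torsion A) h1
  have e : (x * y⁻¹)⁻¹ = y * x⁻¹ := by group
  rwa [e] at h

theorem a4_root {A : Type} [CommGroup A] {x : A} {n : ℕ} (hn : 0 < n) (h : IsOfFinOrder (x ^ n)) : IsOfFinOrder x := by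
  rw [isOfFinOrder_iff_pow_eq_one] at h ⊢
  obtain ⟨m, hm, h1⟩ := h
  exact ⟨n * m, Nat.mul_pos hn hm, by rw [pow_mul, h1]⟩

theorem a4_pow {A : Type} [CommGroup A] {x : A} (n : ℤ) (h : IsOfFinOrder x) : IsOfFinOrder (x ^ n) :=
  Subgroup.zpow_mem (CommGroup.torsion A) h n

theorem dim_lemma {G : Type} [Group G] [Fintype G] {A : Type} [CommGroup A]
    (ac : G →* Monoid.End A) {l : ℕ} [Fact l.Prime] {k : Type} [Field k] [Fintype k]
    [DecidableEq k] [CharP k l] (χ : G →* kˣ) (hχ : Function.Bijective χ) (ρ : k →+ ZMod l)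
    (hρ : IsRho l ρ) (n : ℕ) (hn : 0 < n) (x y z : A) (α β : G → ℤ)
    (hx : IsOfFinOrder (x ^ n * (pw ac α z)⁻¹)) (hy : IsOfFinOrder (y ^ n * (pw ac β z)⁻¹)) :
    ∃ (γ γ' : G → ℤ) (w : A), (chs χ γ ≠ 0 ∨ chs χ γ' ≠ 0) ∧
      IsOfFinOrder (pw ac γ x * (pw ac γ' y)⁻¹ * w ^ l) := by
  have hl : l.Prime := Fact.out
  have hc : ∀ a b : G, a * b = b * a := by
    intro a b
    apply hχ.1
    rw [map_mul, map_mul, mul_comm]
  have hε : chs χ (cf χ ρ (-1)) = 1 := by rw [chs_nn χ ρ hχ hρ, neg_neg]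
  -- the action respects equality up to torsion
  have hpw : ∀ (δ : G → ℤ) {u v : A}, IsOfFinOrder (u * v⁻¹) → IsOfFinOrder (pw ac δ u * (pw ac δ v)⁻¹) := by
    intro δ u v h
    have h1 := pw_fin ac δ _ h
    rwa [pw_mul, pw_inv] at h1
  induction n using Nat.strong_induction_on generalizing x y α β with
  | _ n ih =>
    by_cases hαβ : chs χ α ≠ 0 ∨ chs χ β ≠ 0
    · -- the first case
      refine ⟨β, α, 1, hαβ.symm, ?_⟩
      rw [one_pow, mul_one]
      refine a4_root hn ?_
      rw [mul_pow, inv_pow]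
      have h1 : IsOfFinOrder (pw ac β x ^ n * (pw ac β (pw ac α z))⁻¹) := by
        have := hpw β hx
        rwa [pw_pow] at this
      have h2 : IsOfFinOrder (pw ac α y ^ n * (pw ac α (pw ac β z))⁻¹) := by
        have := hpw α hy
        rwa [pw_pow] at this
      have h3 : pw ac β (pw ac α z) = pw ac α (pw ac β z) := by
        rw [← pw_conv, ← pw_conv, conv_comm hc]
      rw [h3] at h1
      exact a4_trans h1 (a4_symm h2)
    · push Not at hαβ
      obtain ⟨hα, hβ⟩ := hαβ
      set ε := cf χ ρ (-1) with hεd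
      have hα' : ∃ α' : G → ℤ, conv ε α = fun g => (l : ℤ) * α' g := by
        choose α' h using fun g => el_conv χ ρ α hα g
        exact ⟨α', funext h⟩
      have hβ' : ∃ β' : G → ℤ, conv ε β = fun g => (l : ℤ) * β' g := by
        choose β' h using fun g => el_conv χ ρ β hβ g
        exact ⟨β', funext h⟩
      obtain ⟨α', hα'⟩ := hα'
      obtain ⟨β', hβ'⟩ := hβ'
      have h1 : IsOfFinOrder (pw ac ε x ^ n * ((pw ac α' z) ^ l)⁻¹) := by
        have := hpw ε hx
        rwa [pw_pow, ← pw_conv, hα', pw_smul, zpow_natCast] at this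
      have h2 : IsOfFinOrder (pw ac ε y ^ n * ((pw ac β' z) ^ l)⁻¹) := by
        have := hpw ε hy
        rwa [pw_pow, ← pw_conv, hβ', pw_smul, zpow_natCast] at this
      by_cases hdiv : l ∣ n
      · obtain ⟨n1, hn1⟩ := hdiv
        have hn1pos : 0 < n1 := by
          rcases Nat.eq_zero_or_pos n1 with h | h
          · rw [h, mul_zero] at hn1
            omega
          · exact h
        have hlt : n1 < n := by
          rw [hn1]
          have := hl.two_le
          nlinarith
        have h3 : IsOfFinOrder ((pw ac ε x) ^ n1 * (pw ac α' z)⁻¹) := by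
          refine a4_root hl.pos ?_
          rw [mul_pow, inv_pow, ← pow_mul, mul_comm n1 l, ← hn1]
          exact h1
        have h4 : IsOfFinOrder ((pw ac ε y) ^ n1 * (pw ac β' z)⁻¹) := by
          refine a4_root hl.pos ?_
          rw [mul_pow, inv_pow, ← pow_mul, mul_comm n1 l, ← hn1]
          exact h2
        obtain ⟨γ, γ', w, h5, h6⟩ := ih n1 hlt hn1pos (pw ac ε x) (pw ac ε y) α' β' h3 h4
        refine ⟨conv γ ε, conv γ' ε, w, ?_, ?_⟩
        · rw [chs_conv, chs_conv, hε, mul_one, mul_one]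
          exact h5
        · rw [pw_conv, pw_conv]
          exact h6
      · -- l does not divide n
        have hcop : Nat.Coprime n l := ((Nat.Prime.coprime_iff_not_dvd hl).2 hdiv).symm
        have hab := Nat.gcd_eq_gcd_ab n l
        rw [hcop.gcd_eq_one] at hab
        set u := Nat.gcdA n l with hu
        set v := Nat.gcdB n l with hv
        set X := pw ac ε x with hX
        set P := pw ac α' z with hP
        refine ⟨ε, 0, (P ^ u * X ^ v)⁻¹, Or.inl (by rw [hε]; exact one_ne_zero), ?_⟩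
        have h0 : pw ac 0 y = 1 := by
          unfold pw
          simp
        rw [h0, inv_one, mul_one]
        have h3 := a4_pow u h1
        have e : (X ^ n * ((P ^ l))⁻¹) ^ u = X * ((P ^ u * X ^ v)⁻¹) ^ l := by
          have e1 : X = X ^ (((n : ℤ) * u + (l : ℤ) * v)) := by
            rw [← hab, Nat.cast_one, zpow_one]
          have e2 : X ^ (((n : ℤ) * u + (l : ℤ) * v)) * ((P ^ u * X ^ v)⁻¹) ^ l = (X ^ n * ((P ^ l))⁻¹) ^ u := by
            rw [zpow_add, zpow_mul, zpow_mul, zpow_natCast, zpow_natCast, mul_zpow, inv_zpow, inv_pow, mul_pow, mul_inv]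
            have e3 : (X ^ l) ^ v = (X ^ v) ^ l := by
              rw [← zpow_natCast, ← zpow_natCast, ← zpow_mul, ← zpow_mul, mul_comm]
            have e4 : (P ^ l) ^ u = (P ^ u) ^ l := by
              rw [← zpow_natCast, ← zpow_natCast, ← zpow_mul, ← zpow_mul, mul_comm]
            rw [e3, e4]
            set a := (X ^ n) ^ u
            set b := (X ^ v) ^ l
            set c := (P ^ u) ^ l
            rw [mul_assoc, mul_comm c⁻¹ b⁻¹, mul_inv_cancel_left]
          rw [← e2, ← e1]
        rw [← e]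
        exact h3

end H99B
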