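import Mathlib
import Pool.Agent.Lib.H99B.Defs
import Pool.Agent.Lib.H55R.BF1
import Pool.Agent.Lib.H55R.HB1

/-!
Chunk B2 (S/M). Rules for Lev and PowMod.
PROOFS. Lev l w x means: x / z^l - 1 has order at least 2 at w. lev_mul: (x y)/(z z')^l - 1 = (x/z^l - 1)(y/z'^l) + (y/z'^l - 1), where y/z'^l has valuation 1
(its difference to 1 has valuation < 1). lev_inv: x⁻¹ z^l - 1 = -(x/z^l - 1) * (z^l / x), valuation of z^l/x is 1. lev_pow (x = z^l): x/z^l - 1 = 0. lev_lpow: Lev x iff Lev (x y^l).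
The same for PowMod (< 1 instead of <= exp(-2)). powmod_of_lpow.
-/

open NumberField IsDedekindDomain

namespace H99B

open H55B H55R

variable {L : Type} [Field L] [NumberField L] {l : ℕ} {w : Pl L}

theorem B2_mul {Γ : Type} [LinearOrderedCommGroupWithZero Γ] (v : Valuation L Γ) {γ : Γ} (hγ : γ < 1)
    {u u' : Lˣ} (h : v ((u : L) - 1) ≤ γ) (h' : v ((u' : L) - 1) ≤ γ) :
    v (((u * u' : Lˣ) : L) - 1) ≤ γ := by
  have h1 : v (u' : L) ≤ 1 := by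
    have e1 : (u' : L) = ((u' : L) - 1) + 1 := by ring
    rw [e1]
    exact v.map_add_le (h'.trans hγ.le) (by rw [map_one])
  have e2 : ((u * u' : Lˣ) : L) - 1 = ((u : L) - 1) * u' + ((u' : L) - 1) := by
    rw [Units.val_mul]
    ring
  rw [e2]
  refine v.map_add_le ?_ h'
  rw [map_mul]
  calc v ((u : L) - 1) * v (u' : L) ≤ γ * 1 := mul_le_mul' h h1
    _ = γ := mul_one γ

theorem B2_inv {Γ : Type} [LinearOrderedCommGroupWithZero Γ] (v : Valuation L Γ) {γ : Γ} (hγ : γ < 1)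
    {u : Lˣ} (h : v ((u : L) - 1) ≤ γ) : v (((u⁻¹ : Lˣ) : L) - 1) ≤ γ := by
  have h1 : v (u : L) = 1 := by
    have e1 : (u : L) = 1 + ((u : L) - 1) := by ring
    rw [e1]
    exact v.map_one_add_of_lt (lt_of_le_of_lt h hγ)
  have e2 : ((u⁻¹ : Lˣ) : L) - 1 = -(((u : L) - 1) * ((u⁻¹ : Lˣ) : L)) := by
    rw [sub_mul, one_mul, Units.mul_inv]
    ring
  have h2 : v ((u⁻¹ : Lˣ) : L) = 1 := by
    have h3 : v ((u : L) * ((u⁻¹ : Lˣ) : L)) = 1 := by rw [Units.mul_inv, map_one]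
    rwa [map_mul, h1, one_mul] at h3
  rw [e2, Valuation.map_neg, map_mul, h2, mul_one]
  exact h

theorem B2_exp : (WithZero.exp (-2 : ℤ) : WithZero (Multiplicative ℤ)) < 1 := by
  rw [← WithZero.exp_zero, WithZero.exp_lt_exp]
  norm_num

theorem B2_rw (x y z z' : Lˣ) : x * y * ((z * z') ^ l)⁻¹ = x * (z ^ l)⁻¹ * (y * (z' ^ l)⁻¹) := by
  rw [mul_pow, mul_inv]
  exact mul_mul_mul_comm _ _ _ _

theorem B2_rw2 (x z : Lˣ) : x⁻¹ * (z⁻¹ ^ l)⁻¹ = (x * (z ^ l)⁻¹)⁻¹ := by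
  rw [mul_inv, inv_pow, inv_inv]

theorem lev_mul {x y : Lˣ} (hx : Lev l w x) (hy : Lev l w y) : Lev l w (x * y) := by
  obtain ⟨z, hz⟩ := hx
  obtain ⟨z', hz'⟩ := hy
  refine ⟨z * z', ?_⟩
  rw [B2_rw]
  exact B2_mul (w.valuation L) B2_exp hz hz'

theorem lev_inv {x : Lˣ} (hx : Lev l w x) : Lev l w x⁻¹ := by
  obtain ⟨z, hz⟩ := hx
  refine ⟨z⁻¹, ?_⟩
  rw [B2_rw2]
  exact B2_inv (w.valuation L) B2_exp hz

theorem lev_pow (z : Lˣ) : Lev l w (z ^ l) := by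
  refine ⟨z, ?_⟩
  rw [mul_inv_cancel, Units.val_one, sub_self, map_zero]
  exact zero_le

theorem B2_lt {Γ : Type} [LinearOrderedCommGroupWithZero Γ] (v : Valuation L Γ) {a b : L}
    (ha : v a < 1) (hb : v b < 1) : max (v a) (v b) < 1 := max_lt ha hb

theorem powMod_mul {x y : Lˣ} (hx : PowMod l w x) (hy : PowMod l w y) : PowMod l w (x * y) := by
  obtain ⟨z, hz⟩ := hx
  obtain ⟨z', hz'⟩ := hy
  refine ⟨z * z', ?_⟩
  rw [B2_rw]
  have h := B2_lt (w.valuation L) hz hz'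
  exact lt_of_le_of_lt (B2_mul (w.valuation L) h (le_max_left _ _) (le_max_right _ _)) h

theorem powMod_inv {x : Lˣ} (hx : PowMod l w x) : PowMod l w x⁻¹ := by
  obtain ⟨z, hz⟩ := hx
  refine ⟨z⁻¹, ?_⟩
  rw [B2_rw2]
  exact lt_of_le_of_lt (B2_inv (w.valuation L) hz le_rfl) hz

theorem powMod_pow (z : Lˣ) : PowMod l w (z ^ l) := by
  refine ⟨z, ?_⟩
  rw [mul_inv_cancel, Units.val_one, sub_self, map_zero]
  exact zero_lt_one

end H99B
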