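import Mathlib
import Pool.Agent.Lib.H99B.A2

/-!
Chunk B1 (S/M). Equivariant homomorphisms k → Lˣ modulo l-th powers.
PROOFS. Write x ~ y for: exists z, x = y z^l (an equivalence relation, compatible with products, inverses, powers, gu σ and pw gu α by pw_mul, pw_pow). m induces an additive
map k → Lˣ/~ with m(χ σ a) ~ gu σ (m a). eq_zero: m(0) ~ m(0)^2. eq_neg, eq_zsmul: from add. eq_pw: m b ^ .. : pw gu α (m b) = prod (gu σ (m b))^(α σ) ~ prod m(χ σ b)^(α σ)
~ m(sum α(σ) χ(σ) b). eta_hom: eta χ ρ (a+b) x: cf χ ρ (a+b) σ = cf χ ρ a σ + cf χ ρ b σ modulo l (ρ additive, ZMod.natCast_zmod_val), so the quotient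
of the two sides is prod (gu σ x)^(l t σ) = z^l. eta_equiv: cf χ ρ (χ τ a) σ = cf χ ρ a (τ⁻¹ σ) exactly (χ(τ) χ(σ)⁻¹ = χ(τ⁻¹ σ)⁻¹, k commutative), so
eta χ ρ (χ τ a) x = prod_σ (gu σ x)^(n(τ⁻¹ σ)) = prod_σ' (gu τ (gu σ' x))^(n σ') = gu τ (eta χ ρ a x), z = 1.
eta_pw: pw gu α (eta χ ρ 1 x) ~ eta χ ρ (chs χ α) x: eq_pw for the homomorphism eta. lpow_of_coprime: u n + v l = 1.
trans_comb: combination a ↦ m(c a) * (m'(c' a))⁻¹ of two equivariant homomorphisms is one (k commutative).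
-/

open NumberField IsDedekindDomain

namespace H99B

open H55B H55R

section b1aux

variable {A : Type} [CommGroup A] {l : ℕ}

/-- Equality up to l-th powers. -/
private def b1R (l : ℕ) (x y : A) : Prop := ∃ z : A, x = y * z ^ l

private theorem b1_refl (x : A) : b1R l x x := ⟨1, by simp⟩

private theorem b1_symm {x y : A} (h : b1R l x y) : b1R l y x := by
  obtain ⟨z, rfl⟩ := h
  exact ⟨z⁻¹, by simp⟩

private theorem b1_trans {x y w : A} (h : b1R l x y) (h' : b1R l y w) : b1R l x w := by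
  obtain ⟨z, rfl⟩ := h
  obtain ⟨v, rfl⟩ := h'
  exact ⟨v * z, by rw [mul_pow, mul_assoc]⟩

private theorem b1_mul {x y x' y' : A} (h : b1R l x y) (h' : b1R l x' y') : b1R l (x * x') (y * y') := by
  obtain ⟨z, rfl⟩ := h
  obtain ⟨v, rfl⟩ := h'
  exact ⟨z * v, by rw [mul_pow, mul_mul_mul_comm]⟩

private theorem b1_inv {x y : A} (h : b1R l x y) : b1R l x⁻¹ y⁻¹ := by
  obtain ⟨z, rfl⟩ := h
  exact ⟨z⁻¹, by rw [mul_inv, inv_pow]⟩

private theorem b1_zpow {x y : A} (h : b1R l x y) (n : ℤ) : b1R l (x ^ n) (y ^ n) := by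
  obtain ⟨z, rfl⟩ := h
  refine ⟨z ^ n, ?_⟩
  rw [mul_zpow, ← zpow_natCast z, ← zpow_natCast (z ^ n), ← zpow_mul, ← zpow_mul, mul_comm n]

private theorem b1_map (f : Monoid.End A) {x y : A} (h : b1R l x y) : b1R l (f x) (f y) := by
  obtain ⟨z, rfl⟩ := h
  exact ⟨f z, by rw [map_mul, map_pow]⟩

private theorem b1_prod {ι : Type} (s : Finset ι) {f g : ι → A} (h : ∀ i ∈ s, b1R l (f i) (g i)) :
    b1R l (∏ i ∈ s, f i) (∏ i ∈ s, g i) := by
  classical
  induction s using Finset.induction_on with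
  | empty => exact b1_refl _
  | insert a s ha ih =>
    rw [Finset.prod_insert ha, Finset.prod_insert ha]
    exact b1_mul (h a (Finset.mem_insert_self a s)) (ih fun i hi => h i (Finset.mem_insert_of_mem hi))

private theorem b1_one {x : A} (h : b1R l x 1) : ∃ z : A, x = z ^ l := by
  obtain ⟨z, hz⟩ := h
  exact ⟨z, by rw [hz, one_mul]⟩

private theorem b1_of_pow (z : A) : b1R l (z ^ l) 1 := ⟨z, by rw [one_mul]⟩

end b1aux

variable {L : Type} [Field L] [NumberField L] [Algebra F L] {l : ℕ} {k : Type} [Field k]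
  {χ : Gal(L/F) →* kˣ} {m : k → Lˣ}

theorem eq_zero (hm : EqHom l χ m) : ∃ z : Lˣ, m 0 = z ^ l := by
  obtain ⟨z, hz⟩ := hm.add 0 0
  rw [add_zero] at hz
  refine ⟨z⁻¹, ?_⟩
  rw [inv_pow]
  refine eq_inv_of_mul_eq_one_left ?_
  have h2 : m 0 * (m 0 * z ^ l) = m 0 * 1 := by rw [mul_one, ← mul_assoc, ← hz]
  exact mul_left_cancel h2

theorem eq_neg (hm : EqHom l χ m) (a : k) : ∃ z : Lˣ, m (-a) = (m a)⁻¹ * z ^ l := by
  obtain ⟨w, hw⟩ := eq_zero hm
  obtain ⟨z, hz⟩ := hm.add (-a) a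
  rw [neg_add_cancel, hw] at hz
  refine ⟨w * z⁻¹, ?_⟩
  rw [mul_pow, hz, inv_pow, mul_inv_cancel_right, mul_comm (m (-a)), inv_mul_cancel_left]

theorem eq_zsmul (hm : EqHom l χ m) (n : ℤ) (a : k) : ∃ z : Lˣ, m (n • a) = m a ^ n * z ^ l := by
  have h0 : b1R l (m 0) 1 := by
    obtain ⟨w, hw⟩ := eq_zero hm
    rw [hw]
    exact b1_of_pow w
  change b1R l (m (n • a)) (m a ^ n)
  induction n using Int.induction_on with
  | zero =>
    rw [zero_smul, zpow_zero]
    exact h0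
  | succ i ih =>
    rw [add_smul, one_smul, zpow_add, zpow_one]
    exact b1_trans (hm.add _ _) (b1_mul ih (b1_refl _))
  | pred i ih =>
    rw [sub_smul, one_smul, sub_eq_add_neg ((-(i : ℤ)) • a), zpow_sub, zpow_one]
    exact b1_trans (hm.add _ _) (b1_mul ih (eq_neg hm a))

theorem eq_sum (hm : EqHom l χ m) {ι : Type} (s : Finset ι) (f : ι → k) :
    ∃ z : Lˣ, m (∑ i ∈ s, f i) = (∏ i ∈ s, m (f i)) * z ^ l := by
  classical
  change b1R l (m (∑ i ∈ s, f i)) (∏ i ∈ s, m (f i))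
  induction s using Finset.induction_on with
  | empty =>
    rw [Finset.sum_empty, Finset.prod_empty]
    obtain ⟨w, hw⟩ := eq_zero hm
    rw [hw]
    exact b1_of_pow w
  | insert a s ha ih =>
    rw [Finset.sum_insert ha, Finset.prod_insert ha]
    exact b1_trans (hm.add _ _) (b1_mul (b1_refl _) ih)

theorem eq_pw (hm : EqHom l χ m) (α : Gal(L/F) → ℤ) (b : k) :
    ∃ z : Lˣ, pw gu α (m b) = m (chs χ α * b) * z ^ l := by
  have e : chs χ α * b = ∑ g, α g • ((χ g : k) * b) := by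
    unfold chs
    rw [Finset.sum_mul]
    exact Finset.sum_congr rfl fun g _ => by rw [zsmul_eq_mul, mul_assoc]
  change b1R l (pw gu α (m b)) (m (chs χ α * b))
  refine b1_symm ?_
  rw [e]
  refine b1_trans (eq_sum hm _ _) ?_
  unfold pw
  refine b1_prod _ fun g _ => ?_
  exact b1_trans (eq_zsmul hm (α g) ((χ g : k) * b)) (b1_zpow (hm.equiv g b) (α g))

theorem trans_comb (hm : EqHom l χ m) {m' : k → Lˣ} (hm' : EqHom l χ m') (c c' : k) :
    EqHom l χ fun a => m (c * a) * (m' (c' * a))⁻¹ := by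
  constructor
  · intro a b
    change b1R l (m (c * (a + b)) * (m' (c' * (a + b)))⁻¹) ((m (c * a) * (m' (c' * a))⁻¹) * (m (c * b) * (m' (c' * b))⁻¹))
    rw [mul_add, mul_add]
    have h1 : b1R l (m (c * a + c * b)) (m (c * a) * m (c * b)) := hm.add _ _
    have h2 : b1R l (m' (c' * a + c' * b)) (m' (c' * a) * m' (c' * b)) := hm'.add _ _
    have h3 := b1_mul h1 (b1_inv h2)
    have e : m (c * a) * (m' (c' * a))⁻¹ * (m (c * b) * (m' (c' * b))⁻¹) =
        m (c * a) * m (c * b) * (m' (c' * a) * m' (c' * b))⁻¹ := by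
      rw [mul_inv, mul_mul_mul_comm]
    rw [e]
    exact h3
  · intro σ a
    change b1R l (m (c * (χ σ * a)) * (m' (c' * (χ σ * a)))⁻¹) (gu σ (m (c * a) * (m' (c' * a))⁻¹))
    rw [map_mul, map_inv, mul_left_comm c, mul_left_comm c']
    exact b1_mul (hm.equiv σ _) (b1_inv (hm'.equiv σ _))

theorem eta_hom [Fact l.Prime] (ρ : k →+ ZMod l) (x : Lˣ) :
    EqHom l χ fun a => eta χ ρ a x := by
  constructor
  · intro a b
    have hcf : ∀ g, ∃ t : ℤ, cf χ ρ (a + b) g = cf χ ρ a g + cf χ ρ b g + t * l := by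
      intro g
      have h : ((cf χ ρ a g + cf χ ρ b g : ℤ) : ZMod l) = ((cf χ ρ (a + b) g : ℤ) : ZMod l) := by
        unfold cf
        push_cast
        simp only [ZMod.natCast_zmod_val]
        rw [← map_add, ← add_mul]
      rw [ZMod.intCast_eq_intCast_iff_dvd_sub] at h
      obtain ⟨t, ht⟩ := h
      exact ⟨t, by rw [mul_comm t, ← ht]; ring⟩
    choose t ht using hcf
    refine ⟨∏ g, (gu g x) ^ t g, ?_⟩
    change pw gu (cf χ ρ (a + b)) x = pw gu (cf χ ρ a) x * pw gu (cf χ ρ b) x * _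
    unfold pw
    rw [← Finset.prod_mul_distrib, ← Finset.prod_pow, ← Finset.prod_mul_distrib]
    refine Finset.prod_congr rfl fun g _ => ?_
    rw [ht g, zpow_add, zpow_add, zpow_mul, zpow_natCast]
  · intro τ a
    refine ⟨1, ?_⟩
    rw [one_pow, mul_one]
    change pw gu (cf χ ρ (χ τ * a)) x = gu τ (pw gu (cf χ ρ a) x)
    unfold pw
    rw [map_prod]
    refine (Fintype.prod_equiv (Equiv.mulLeft τ) _ _ fun g => ?_).symm
    simp only [Equiv.coe_mulLeft]
    rw [map_zpow, map_mul]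
    have e : cf χ ρ ((χ τ : k) * a) (τ * g) = cf χ ρ a g := by
      unfold cf
      congr 3
      rw [map_mul, mul_inv, Units.val_mul]
      have h : (χ τ : k) * (((χ τ)⁻¹ : kˣ) : k) = 1 := Units.mul_inv _
      linear_combination (a * (((χ g)⁻¹ : kˣ) : k)) * h
    rw [e]
    rfl

theorem lpow_of_coprime {A : Type} [CommGroup A] (n : ℤ) (x : A) (h : IsCoprime n (l : ℤ))
    (hx : ∃ z : A, x ^ n = z ^ l) : ∃ z : A, x = z ^ l := by
  obtain ⟨u, v, huv⟩ := h
  obtain ⟨z, hz⟩ := hx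
  refine ⟨z ^ u * x ^ v, ?_⟩
  rw [mul_pow, ← zpow_natCast (z ^ u), ← zpow_mul, mul_comm u, zpow_mul, zpow_natCast, ← hz, ← zpow_mul,
    ← zpow_natCast (x ^ v), ← zpow_mul, ← zpow_add, mul_comm n, huv, zpow_one]

end H99B
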