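import Mathlib
import Pool.Agent.Lib.H99B.B1

/-!
Chunk B4 (M). No torsion: an equivariant homomorphism k → Lˣ/l whose values are torsion modulo l-th powers is trivial, if the Galois group does not act on the l-th
roots of unity in L (if there are any) through χ.
PROOF. Choose τ a of finite order with m a = τ a z^l; τ is again EqHom. The elements of finite order of Lˣ form a finite cyclic group μ (NumberField: rootsOfUnity / torsion;
a subgroup of Lˣ of finite order is cyclic; finiteness: NumberField.Units torsion, or Units.finite_of.. for CommGroup.torsion) of order N, generated by g.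
If l does not divide N: every element of μ is an l-th power in μ (lpow_of_coprime with n = N, x^N = 1 = 1^l). If l | N: τ a = g^(t a), t a in Z modulo N. Let K0 = {a : τ a is an l-th power in Lˣ}
= {a : l | t a} (if g^t = z^l then z is of finite order, z = g^s, t = l s modulo N). K0 is a subgroup of k stable under multiplication by χ σ for all σ, i.e. by all units of k
(χ bijective), so K0 = k or K0 = 0. If K0 = k: done. If K0 = 0: a ↦ t a mod l is an injective additive map k → ZMod l, so t 1 ≠ 0. Let ζ = g^(N/l), a primitive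
l-th root of unity. For σ and n with (n : k) = χ σ: τ(χ σ * 1) = τ(n • 1) ~ τ(1)^n and ~ gu σ (τ 1). gu σ g = g^r for some r (g generates); then gu σ (τ 1) = g^(r t 1), and
g^(r t 1) ~ g^(n t 1) gives r t1 = n t1 mod l, r = n mod l, hence gu σ ζ = g^(r N/l) = g^(n N/l) = ζ^n. This holds for all σ, n: contradiction to hcyc.
-/

open NumberField IsDedekindDomain

namespace H99B

open H55B H55R

theorem b4_finite (L : Type) [Field L] [NumberField L] : Finite (CommGroup.torsion Lˣ) := by
  have h := NumberField.Embeddings.finite_of_norm_le L ℂ 1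
  have h2 : Set.Finite ((CommGroup.torsion Lˣ : Set Lˣ)) := by
    refine Set.Finite.of_finite_image (f := fun x : Lˣ => (x : L)) (h.subset ?_) (fun x _ y _ hxy => Units.ext hxy)
    rintro _ ⟨x, hx, rfl⟩
    obtain ⟨n, hn, h1⟩ := isOfFinOrder_iff_pow_eq_one.1 hx
    have h2 : (x : L) ^ n = 1 := by rw [← Units.val_pow_eq_pow_val, h1, Units.val_one]
    refine ⟨IsIntegral.of_pow hn (by rw [h2]; exact isIntegral_one), fun φ => ?_⟩
    have h3 : (φ (x : L)) ^ n = 1 := by rw [← map_pow, h2, map_one]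
    exact (Complex.norm_eq_one_of_pow_eq_one h3 hn.ne').le
  exact h2.to_subtype

theorem torsion_triv {L : Type} [Field L] [NumberField L] [Algebra F L] {l : ℕ} [Fact l.Prime]
    {k : Type} [Field k] [CharP k l] {χ : Gal(L/F) →* kˣ} (hχ : Function.Bijective χ)
    (hcyc : ∀ ζ : Lˣ, IsPrimitiveRoot ζ l →
      ¬ ∀ (σ : Gal(L/F)) (n : ℕ), (n : k) = χ σ → gu σ ζ = ζ ^ n)
    {m : k → Lˣ} (hm : EqHom l χ m)
    (ht : ∀ a, ∃ τ z : Lˣ, IsOfFinOrder τ ∧ m a = τ * z ^ l) (a : k) : ∃ z : Lˣ, m a = z ^ l := by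
  have hl : l.Prime := Fact.out
  have hfin := b4_finite L
  choose τ z hτ hz using ht
  obtain ⟨g, hg⟩ := IsCyclic.exists_generator (α := CommGroup.torsion Lˣ)
  set N := Nat.card (CommGroup.torsion Lˣ) with hN
  have hN0 : 0 < N := Nat.card_pos
  have hgN : orderOf (g : Lˣ) = N := by
    rw [Subgroup.orderOf_coe, orderOf_eq_card_of_forall_mem_zpowers hg]
  -- every torsion element is a power of g
  have hpow : ∀ x : Lˣ, IsOfFinOrder x → ∃ t : ℤ, x = (g : Lˣ) ^ t := by
    intro x hx
    obtain ⟨t, h⟩ := hg ⟨x, hx⟩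
    exact ⟨t, (congrArg (Subtype.val) h).symm⟩
  by_cases hlN : l ∣ N
  · -- powers of g which are l-th powers
    have key : ∀ t : ℤ, (∃ w : Lˣ, (g : Lˣ) ^ t = w ^ l) → (l : ℤ) ∣ t := by
      rintro t ⟨w, hw⟩
      have hwf : IsOfFinOrder w := by
        have h1 : IsOfFinOrder ((g : Lˣ) ^ t) := Subgroup.zpow_mem (CommGroup.torsion Lˣ) g.2 t
        rw [hw] at h1
        rw [isOfFinOrder_iff_pow_eq_one] at h1 ⊢
        obtain ⟨q, hq, h2⟩ := h1
        exact ⟨l * q, Nat.mul_pos hl.pos hq, by rw [pow_mul, h2]⟩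
      obtain ⟨s, hs⟩ := hpow w hwf
      have h1 : (g : Lˣ) ^ (t - s * l) = 1 := by
        rw [zpow_sub, hw, hs, zpow_mul, zpow_natCast, mul_inv_cancel]
      have h2 : (N : ℤ) ∣ t - s * l := by
        rw [← hgN]
        exact orderOf_dvd_iff_zpow_eq_one.2 h1
      have h3 : (l : ℤ) ∣ t - s * l := (Int.natCast_dvd_natCast.2 hlN).trans h2
      have h4 := dvd_add h3 (dvd_mul_left (l : ℤ) s)
      rwa [sub_add_cancel] at h4
    choose t htt using fun a => hpow (τ a) (hτ a)
    -- additivity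
    have hadd : ∀ a b : k, ((t (a + b) : ℤ) : ZMod l) = (t a : ZMod l) + (t b : ZMod l) := by
      intro a b
      obtain ⟨w, hw⟩ := hm.add a b
      have h1 : (l : ℤ) ∣ t (a + b) - (t a + t b) := by
        refine key _ ⟨z a * z b * w * (z (a + b))⁻¹, ?_⟩
        rw [hz, hz a, hz b, htt, htt a, htt b] at hw
        rw [zpow_sub, zpow_add, mul_pow, mul_pow, mul_pow, inv_pow, mul_inv_eq_iff_eq_mul]
        have e : (g : Lˣ) ^ t (a + b) = (g : Lˣ) ^ t a * z a ^ l * ((g : Lˣ) ^ t b * z b ^ l) * w ^ l * (z (a + b) ^ l)⁻¹ := by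
          rw [← hw, mul_inv_cancel_right]
        rw [e]
        ac_rfl
      have h2 := (ZMod.intCast_zmod_eq_zero_iff_dvd _ l).2 h1
      push_cast at h2
      linear_combination h2
    set ψ : k →+ ZMod l := AddMonoidHom.mk' (fun a => ((t a : ℤ) : ZMod l)) hadd with hψ
    have hψa : ∀ a, ψ a = ((t a : ℤ) : ZMod l) := fun a => rfl
    choose r hr using fun σ : Gal(L/F) => hpow (gu σ (g : Lˣ)) (MonoidHom.isOfFinOrder (gu σ : Lˣ →* Lˣ) g.2)
    have hequiv : ∀ (σ : Gal(L/F)) (a : k), ψ (χ σ * a) = (r σ : ZMod l) * ψ a := by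
      intro σ a
      obtain ⟨w, hw⟩ := hm.equiv σ a
      have h1 : (l : ℤ) ∣ t (χ σ * a) - r σ * t a := by
        refine key _ ⟨gu σ (z a) * w * (z (χ σ * a))⁻¹, ?_⟩
        rw [hz, hz a, htt, htt a, map_mul, map_zpow, map_pow, hr, ← zpow_mul] at hw
        rw [zpow_sub, mul_pow, mul_pow, inv_pow, mul_inv_eq_iff_eq_mul]
        have e : (g : Lˣ) ^ t (χ σ * a) = (g : Lˣ) ^ (r σ * t a) * gu σ (z a) ^ l * w ^ l * (z (χ σ * a) ^ l)⁻¹ := by
          rw [← hw, mul_inv_cancel_right]
        rw [e]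
        ac_rfl
      have h2 := (ZMod.intCast_zmod_eq_zero_iff_dvd _ l).2 h1
      push_cast at h2
      rw [hψa, hψa]
      linear_combination h2
    by_cases h1 : ψ 1 = 0
    · -- everything is trivial
      have h2 : ψ a = 0 := by
        by_cases ha : a = 0
        · rw [ha, map_zero]
        · obtain ⟨σ, hσ⟩ := hχ.2 (Units.mk0 a ha)
          have h3 := hequiv σ 1
          rw [hσ, h1, mul_zero, Units.val_mk0, mul_one] at h3
          exact h3
      rw [hψa, ZMod.intCast_zmod_eq_zero_iff_dvd] at h2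
      obtain ⟨s, hs⟩ := h2
      refine ⟨(g : Lˣ) ^ s * z a, ?_⟩
      rw [hz a, htt a, hs, mul_pow, ← zpow_natCast ((g : Lˣ) ^ s), ← zpow_mul, mul_comm s]
    · exfalso
      obtain ⟨M, hM⟩ := hlN
      have hM0 : 0 < M := by
        rcases Nat.eq_zero_or_pos M with h | h
        · rw [h, mul_zero] at hM
          omega
        · exact h
      have hprim : IsPrimitiveRoot ((g : Lˣ) ^ M) l := by
        have h2 : IsPrimitiveRoot (g : Lˣ) N := by
          rw [← hgN]
          exact IsPrimitiveRoot.orderOf _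
        exact h2.pow hN0 (by rw [hM, mul_comm])
      refine hcyc _ hprim fun σ n hn => ?_
      have h2 := hequiv σ 1
      rw [mul_one, ← hn] at h2
      have h3 : ψ (n : k) = (n : ZMod l) * ψ 1 := by
        have h4 : (n : k) = n • (1 : k) := by rw [nsmul_eq_mul, mul_one]
        rw [h4, map_nsmul, nsmul_eq_mul]
      rw [h3] at h2
      have h4 : (n : ZMod l) = (r σ : ZMod l) := mul_right_cancel₀ h1 h2
      have h5 : (l : ℤ) ∣ (r σ) - n := by
        rw [← ZMod.intCast_zmod_eq_zero_iff_dvd]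
        push_cast
        rw [h4, sub_self]
      obtain ⟨c, hc⟩ := h5
      rw [map_pow, hr]
      have h6 : r σ = (n : ℤ) + l * c := by linarith
      have h7 : (((g : Lˣ) ^ M) ^ (l : ℤ)) = 1 := by
        rw [zpow_natCast, hprim.pow_eq_one]
      calc ((g : Lˣ) ^ r σ) ^ M = ((g : Lˣ) ^ M) ^ (r σ) := by
            rw [← zpow_natCast, ← zpow_natCast, ← zpow_mul, ← zpow_mul, mul_comm]
        _ = ((g : Lˣ) ^ M) ^ n := by
            rw [h6, zpow_add, zpow_mul, h7, one_zpow, mul_one, zpow_natCast]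
  · have h1 : ∃ w : Lˣ, τ a = w ^ l := by
      refine lpow_of_coprime (l := l) (N : ℤ) (τ a) ?_ ⟨1, ?_⟩
      · rw [Nat.isCoprime_iff_coprime]
        exact ((Nat.Prime.coprime_iff_not_dvd hl).2 hlN).symm
      · obtain ⟨t, ht⟩ := hpow (τ a) (hτ a)
        rw [one_pow, ht, ← zpow_mul, mul_comm, zpow_mul, zpow_natCast, ← hgN, pow_orderOf_eq_one, one_zpow]
    obtain ⟨w, hw⟩ := h1
    exact ⟨w * z a, by rw [hz a, hw, mul_pow]⟩

end H99B
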