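import Mathlib
import Pool.Agent.Lib.H99B.A2

/-!
Chunk A5 (M/L). Duality for a finite abelian group C with an action of G (χ : G → kˣ bijective).
PROOF. Suppose that no such θ exists. For λ : C →+ ZMod l put θ_λ(x) = sum_g ((λ (ac g⁻¹ x)).val : k) χ(g): the map ZMod l → k, c ↦ (c.val : k) is the ring
homomorphism ZMod.castHom (dvd_refl l) k (CharP k l), so θ_λ is additive, and θ_λ (ac h x) = χ(h) θ_λ(x) (substitute g → h g). Hence θ_λ = 0 for all λ.
Let n(g) = (ρ(-χ(g)⁻¹)).val = cf χ ρ (-1) g. ρ is additive, so ρ((c.val : k) * b) = c * ρ b in ZMod l for c : ZMod l, and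
0 = ρ(-θ_λ(x)) = sum_g λ(ac g⁻¹ x) ρ(-χ(g)) = λ(sum_g n(g⁻¹) ac g⁻¹ x) = λ(M x) with M x = pa ac (cf χ ρ (-1)) x. So λ (M x) = 0 for all λ : C →+ ZMod l, hence M x ∈ lC: C/lC is a
vector space over ZMod l (AddCommGroup.zmodModule), and linear forms separate points (Module.forall_dual_apply_eq_zero_iff or exists basis), composed with C → C/lC.
M is additive and commutes with multiplication by l, so M^j x ∈ l^j C for all j. On the other hand M (m b) = sum_g n(g) m(χ(g) b) = m(sum_g n(g) χ(g) b) = m(-(-1) b) = m b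
(IsRho for a = -1, χ bijective, integer multiples: (n : k) b = n • b). So m b ∈ l^j C for every j, and l • m b = m(l • b) = 0. With j = card C:
m b = l^j • x, the order of x divides l^(j+1) and card C, so it is l^i with l^i ≤ card C < l^(card C), i ≤ j, so m b = 0. Contradiction.
-/

namespace H99B

section A5

variable {G : Type} [Group G] [Fintype G] {C : Type} [AddCommGroup C]
  (ac : G →* AddMonoid.End C) {l : ℕ} [Fact l.Prime] {k : Type} [Field k] [CharP k l]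

/-- The homomorphism of a linear form. -/
noncomputable def A5_th (χ : G →* kˣ) (f : C →+ ZMod l) : C →+ k :=
  ∑ g : G, (AddMonoidHom.mulRight ((χ g : kˣ) : k)).comp
    (((ZMod.castHom (dvd_refl l) k : ZMod l →+* k) : ZMod l →+ k).comp (f.comp (ac g⁻¹ : C →+ C)))

theorem A5_th_apply (χ : G →* kˣ) (f : C →+ ZMod l) (x : C) :
    A5_th ac χ f x = ∑ g : G, ((f (ac g⁻¹ x)).val : k) * (χ g : k) := by
  unfold A5_th
  rw [AddMonoidHom.finsetSum_apply]
  refine Finset.sum_congr rfl fun g _ => ?_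
  show (ZMod.castHom (dvd_refl l) k) (f (ac g⁻¹ x)) * (χ g : k) = _
  rw [ZMod.castHom_apply, ZMod.natCast_val]

theorem A5_equiv (χ : G →* kˣ) (f : C →+ ZMod l) (h : G) (x : C) :
    A5_th ac χ f (ac h x) = χ h * A5_th ac χ f x := by
  rw [A5_th_apply, A5_th_apply, ← Equiv.sum_comp (Equiv.mulLeft h), Finset.mul_sum]
  refine Finset.sum_congr rfl fun g _ => ?_
  have e1 : ac (h * g)⁻¹ (ac h x) = ac g⁻¹ x := by
    have e2 : ac g⁻¹ = ac (h * g)⁻¹ * ac h := by
      rw [← map_mul]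
      congr 1
      group
    rw [e2]
    rfl
  show ((f (ac (h * g)⁻¹ (ac h x))).val : k) * (χ (h * g) : k) = _
  rw [e1, map_mul, Units.val_mul]
  ring

omit [CharP k l] in
theorem A5_rho (ρ : k →+ ZMod l) (y : ZMod l) (b : k) : ρ ((y.val : k) * b) = y * ρ b := by
  rw [← nsmul_eq_mul, map_nsmul, nsmul_eq_mul, ZMod.natCast_val, ZMod.cast_id]

/-- The group ring element of value one. -/
noncomputable def A5_M (χ : G →* kˣ) (ρ : k →+ ZMod l) (x : C) : C := pa ac (cf χ ρ (-1)) x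

omit [CharP k l] in
theorem A5_M_nsmul (χ : G →* kˣ) (ρ : k →+ ZMod l) (n : ℕ) (x : C) :
    A5_M ac χ ρ (n • x) = n • A5_M ac χ ρ x := by
  unfold A5_M pa
  rw [Finset.smul_sum]
  refine Finset.sum_congr rfl fun g _ => ?_
  rw [map_nsmul, smul_comm]

theorem A5_lam (χ : G →* kˣ) (ρ : k →+ ZMod l) (f : C →+ ZMod l) (x : C) :
    f (A5_M ac χ ρ x) = ρ (-A5_th ac χ f x) := by
  rw [A5_th_apply, map_neg, map_sum]
  unfold A5_M pa
  rw [map_sum, ← Finset.sum_neg_distrib, ← Equiv.sum_comp (Equiv.inv G)]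
  refine Finset.sum_congr rfl fun g _ => ?_
  rw [A5_rho, map_zsmul, zsmul_eq_mul]
  show ((cf χ ρ (-1) g⁻¹ : ℤ) : ZMod l) * f (ac g⁻¹ x) = _
  unfold cf
  rw [map_inv, inv_inv, Int.cast_natCast, ZMod.natCast_val, ZMod.cast_id, neg_one_mul, map_neg]
  ring

theorem A5_sep0 {Q : Type} [AddCommGroup Q] [Module (ZMod l) Q] (y : Q)
    (h : ∀ f : Q →+ ZMod l, f y = 0) : y = 0 := by
  refine (Module.forall_dual_apply_eq_zero_iff (ZMod l) y).1 ?_
  intro φ
  exact h φ.toAddMonoidHom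

theorem A5_sep {Q : Type} [AddCommGroup Q] (hS : ∀ q : Q, l • q = 0) (y : Q)
    (h : ∀ f : Q →+ ZMod l, f y = 0) : y = 0 :=
  @A5_sep0 l _ Q _ (AddCommGroup.zmodModule hS) y h

theorem A5_div (y : C) (h : ∀ f : C →+ ZMod l, f y = 0) : ∃ z : C, y = l • z := by
  let S : AddSubgroup C := (nsmulAddMonoidHom l : C →+ C).range
  have hS : ∀ q : C ⧸ S, l • q = 0 := by
    intro q
    obtain ⟨x, rfl⟩ := QuotientAddGroup.mk_surjective q
    rw [← QuotientAddGroup.mk_nsmul, QuotientAddGroup.eq_zero_iff]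
    exact ⟨x, rfl⟩
  have h1 : (QuotientAddGroup.mk y : C ⧸ S) = 0 :=
    A5_sep hS _ fun φ => h (φ.comp (QuotientAddGroup.mk' S))
  rw [QuotientAddGroup.eq_zero_iff] at h1
  obtain ⟨z, hz⟩ := h1
  exact ⟨z, hz.symm⟩

theorem A5_tors [Finite C] (y : C) (h1 : l • y = 0) (h2 : ∀ j : ℕ, ∃ z : C, y = l ^ j • z) :
    y = 0 := by
  have hp : l.Prime := Fact.out
  obtain ⟨z, hz⟩ := h2 (Nat.card C)
  have h3 : l ^ (Nat.card C + 1) • z = 0 := by
    rw [pow_succ', mul_smul, ← hz, h1]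
  obtain ⟨i, hi, hi'⟩ := (Nat.dvd_prime_pow hp).1 (addOrderOf_dvd_of_nsmul_eq_zero h3)
  have h4 : addOrderOf z ≤ Nat.card C := addOrderOf_le_card
  have h5 : Nat.card C < l ^ Nat.card C := Nat.lt_pow_self hp.one_lt
  have h6 : i ≤ Nat.card C := by
    by_contra hc
    push Not at hc
    have h7 : l ^ Nat.card C ≤ l ^ i := Nat.pow_le_pow_right hp.pos hc.le
    rw [← hi'] at h7
    omega
  rw [hz]
  apply addOrderOf_dvd_iff_nsmul_eq_zero.1
  rw [hi']
  exact pow_dvd_pow _ h6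

end A5

theorem dual_hom {G : Type} [Group G] [Fintype G] {C : Type} [AddCommGroup C] [Finite C]
    (ac : G →* AddMonoid.End C) {l : ℕ} [Fact l.Prime] {k : Type} [Field k] [Fintype k]
    [DecidableEq k] [CharP k l] (χ : G →* kˣ) (hχ : Function.Bijective χ) (ρ : k →+ ZMod l)
    (hρ : IsRho l ρ) (m : k →+ C) (hm : ∀ (g : G) (a : k), m (χ g * a) = ac g (m a))
    (hm0 : ∃ a, m a ≠ 0) :
    ∃ θ : C →+ k, (∀ (g : G) (x : C), θ (ac g x) = χ g * θ x) ∧ ∃ x, θ x ≠ 0 := by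
  by_contra hcon
  push Not at hcon
  have h0 : ∀ (f : C →+ ZMod l) (x : C), A5_th ac χ f x = 0 := fun f =>
    hcon (A5_th ac χ f) (A5_equiv ac χ f)
  have h1 : ∀ x : C, ∃ z : C, A5_M ac χ ρ x = l • z := fun x =>
    A5_div _ fun f => by rw [A5_lam, h0, neg_zero, map_zero]
  obtain ⟨b, hb⟩ := hm0
  apply hb
  have h2 : A5_M ac χ ρ (m b) = m b := by
    have e1 : ∀ g : G, cf χ ρ (-1) g • ac g (m b) = m (((cf χ ρ (-1) g : ℤ) : k) * (χ g : k) * b) := by
      intro g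
      rw [mul_assoc, ← zsmul_eq_mul, map_zsmul, hm]
    have e2 : ∑ g : G, ((cf χ ρ (-1) g : ℤ) : k) * (χ g : k) = 1 := by
      have := chs_nn χ ρ hχ hρ (-1)
      rw [neg_neg] at this
      exact this
    unfold A5_M pa
    rw [Finset.sum_congr rfl fun g _ => e1 g, ← map_sum, ← Finset.sum_mul, e2, one_mul]
  have h3 : ∀ j : ℕ, ∃ z : C, m b = l ^ j • z := by
    intro j
    induction j with
    | zero => exact ⟨m b, by rw [pow_zero, one_smul]⟩
    | succ j ih =>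
      obtain ⟨z, hz⟩ := ih
      obtain ⟨z', hz'⟩ := h1 z
      refine ⟨z', ?_⟩
      rw [← h2, hz, A5_M_nsmul, hz', smul_smul, ← pow_succ]
  refine A5_tors (m b) ?_ h3
  rw [← map_nsmul, nsmul_eq_mul, CharP.cast_eq_zero, zero_mul, map_zero]

end H99B
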