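import Mathlib
import Pool.Agent.Lib.H99B.Defs
import Pool.Agent.Lib.H55R.BF3

/-!
Chunk T1 (S/M). Hilbert 90 and the divisor of the norm.
hilb: groupCohomology.exists_div_of_norm_eq_one (as in H55R.HA11), x = z / h z, b = z⁻¹.
ord_inv_gen: for W above v: ord (smulP h⁻¹ W) b = ord W (h b) (ord_smul) = ord W al + ord W b = ord W b, the prime smulP h⁻¹ W is again above v (under_smulP), so by induction
ord (smulP g W) b = ord W b for all g (zpowers; for negative powers use finiteness of the order or the equation backwards).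
ord_nrm: ord_norm with T = the (finite, above_finite) set of primes above v, all ord W' b equal (smulP_trans), card_above: card T * (es * fs) = finrank = card Gal. So
es * ord v (nrm b) = es * fs * card T * ord W b = card Gal * ord W b.
-/

open NumberField IsDedekindDomain

namespace H99B

open H55B H55R

variable {L B : Type} [Field L] [NumberField L] [Field B] [NumberField B] [Algebra L B]

theorem hilb [IsGalois L B] (h : Gal(B/L)) (hh : ∀ g : Gal(B/L), g ∈ Subgroup.zpowers h) (al : Bˣ)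
    (hal : Algebra.norm L (al : B) = 1) :
    ∃ b : Bˣ, Units.map ((h : B ≃ₐ[L] B) : B →* B) b = al * b := by
  have : FiniteDimensional L B := Module.Finite.of_restrictScalars_finite ℚ L B
  have hcy : IsCyclic Gal(B/L) := ⟨h, hh⟩
  obtain ⟨z, hz⟩ := groupCohomology.exists_div_of_norm_eq_one hh hal
  refine ⟨z⁻¹, ?_⟩
  apply Units.ext
  have hz0 : (z : B) ≠ 0 := z.ne_zero
  have hz1 : h (z : B) ≠ 0 := (map_ne_zero h).2 hz0
  rw [map_inv, Units.val_mul, Units.val_inv_eq_inv_val, Units.val_inv_eq_inv_val, Units.coe_map]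
  change (h (z : B))⁻¹ = (al : B) * (z : B)⁻¹
  rw [← hz]
  field_simp

theorem t1_ord (h : Gal(B/L)) (al b : Bˣ) (hb : Units.map ((h : B ≃ₐ[L] B) : B →* B) b = al * b)
    (v : Pl L) (hv : ∀ W : Pl B, W.under (𝓞 L) = v → ord W al = 0) (W : Pl B)
    (hW : W.under (𝓞 L) = v) : ord (smulP h⁻¹ W) b = ord W b := by
  have h1 := ord_smul h (smulP h⁻¹ W) b
  rw [← smulP_mul, mul_inv_cancel, smulP_one, hb, ord_mul, hv W hW, zero_add] at h1
  exact h1.symm

/-- The elements of the Galois group which preserve the orders of `b` above `v`. -/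
def t1_sub (b : Bˣ) (v : Pl L) : Subgroup Gal(B/L) where
  carrier := {g | ∀ W : Pl B, W.under (𝓞 L) = v → ord (smulP g W) b = ord W b}
  one_mem' := fun W _ => by rw [smulP_one]
  mul_mem' := by
    intro g g' hg hg' W hW
    rw [smulP_mul, hg _ ((under_smulP g' W).trans hW), hg' W hW]
  inv_mem' := by
    intro g hg W hW
    have h1 := hg (smulP g⁻¹ W) ((under_smulP g⁻¹ W).trans hW)
    rw [← smulP_mul, mul_inv_cancel, smulP_one] at h1
    exact h1.symm

theorem ord_inv_gen [IsGalois L B] (h : Gal(B/L)) (hh : ∀ g : Gal(B/L), g ∈ Subgroup.zpowers h)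
    (al b : Bˣ) (hb : Units.map ((h : B ≃ₐ[L] B) : B →* B) b = al * b) (v : Pl L)
    (hv : ∀ W : Pl B, W.under (𝓞 L) = v → ord W al = 0) (W W' : Pl B) (hW : W.under (𝓞 L) = v)
    (hW' : W'.under (𝓞 L) = v) : ord W b = ord W' b := by
  have h1 : h⁻¹ ∈ t1_sub b v := fun W₁ hW₁ => t1_ord h al b hb v hv W₁ hW₁
  have h2 : h ∈ t1_sub b v := by
    have := (t1_sub b v).inv_mem h1
    rwa [inv_inv] at this
  obtain ⟨σ, hσ⟩ := smulP_trans (K := L) (L := B) W W' (hW.trans hW'.symm)
  have h3 : σ ∈ t1_sub b v := (Subgroup.zpowers_le.2 h2) (hh σ)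
  rw [← hσ]
  exact (h3 W hW).symm

theorem ord_nrm [IsGalois L B] (h : Gal(B/L)) (hh : ∀ g : Gal(B/L), g ∈ Subgroup.zpowers h)
    (al b : Bˣ) (hb : Units.map ((h : B ≃ₐ[L] B) : B →* B) b = al * b) (v : Pl L)
    (hv : ∀ W : Pl B, W.under (𝓞 L) = v → ord W al = 0) (W : Pl B) (hW : W.under (𝓞 L) = v) :
    (es L B v : ℤ) * ord v (nrm L B b) = Nat.card Gal(B/L) * ord W b := by
  have hT : ∀ W', W' ∈ (above_finite (L := B) v).toFinset ↔ W'.under (𝓞 L) = v := fun W' => by
    rw [Set.Finite.mem_toFinset]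
    rfl
  have h1 := ord_norm v _ hT b
  have h2 := card_above v _ hT
  have h3 : ∑ W' ∈ (above_finite (L := B) v).toFinset, ord W' b =
      (above_finite (L := B) v).toFinset.card * ord W b := by
    rw [Finset.sum_congr rfl fun W' hW' => ord_inv_gen h hh al b hb v hv W' W ((hT W').1 hW') hW,
      Finset.sum_const, nsmul_eq_mul]
  rw [IsGalois.card_aut_eq_finrank, ← h2, h1, h3]
  push_cast
  ring

end H99B
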