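import Mathlib
import Pool.Agent.Lib.H28G.K13
import Pool.Agent.Lib.H13S.Defs

/-!
# H99B: the base case, geometric form (assembly of H28G.geo_main over the field of the π-torsion in Ω)
-/

open NumberField IsDedekindDomain WeierstrassCurve

namespace H99B

open H55B H55R H28G H13S H55P

section
variable {Ω : Type} [Field Ω] [DecidableEq Ω] [Algebra F Ω]

theorem tf_mem {π : O} {R : P27 Ω} (hR : R ∈ Tor π Ω) :
    xc R ∈ TF F Ω π ∧ yc R ∈ TF F Ω π :=
  ⟨IntermediateField.subset_adjoin _ _ ⟨R, hR, Or.inl rfl⟩,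
    IntermediateField.subset_adjoin _ _ ⟨R, hR, Or.inr rfl⟩⟩

theorem tf_fix {π : O} (s : Ω ≃ₐ[F] Ω) :
    s ∈ (TF F Ω π).fixingSubgroup ↔ ∀ T ∈ Tor π Ω, ac W27 s T = T := by
  constructor
  · intro hs T hT
    rw [ac_eq]
    by_cases h0 : T = 0
    · rw [h0, map_zero]
    · refine pt_ext (mp_ne _ h0) h0 ?_ ?_
      · rw [xc_mp]
        exact (IntermediateField.mem_fixingSubgroup_iff _ _).1 hs _ (tf_mem hT).1
      · rw [yc_mp]
        exact (IntermediateField.mem_fixingSubgroup_iff _ _).1 hs _ (tf_mem hT).2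
  · intro h
    rw [IntermediateField.mem_fixingSubgroup_iff]
    have h1 : TF F Ω π ≤ IntermediateField.fixedField (Subgroup.zpowers s) := by
      unfold TF
      rw [IntermediateField.adjoin_le_iff]
      rintro x ⟨R, hR, hx⟩
      have h2 := h R hR
      rw [ac_eq] at h2
      have h3 : s x = x := by
        rcases hx with rfl | rfl
        · conv_rhs => rw [← h2, xc_mp]
          rfl
        · conv_rhs => rw [← h2, yc_mp]
          rfl
      rw [SetLike.mem_coe, IntermediateField.mem_fixedField_iff]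
      intro g hg
      have h4 : Subgroup.zpowers s ≤ MulAction.stabilizer (Ω ≃ₐ[F] Ω) x := by
        rw [Subgroup.zpowers_le]
        exact h3
      exact h4 hg
    intro x hx
    have h5 := h1 hx
    rw [IntermediateField.mem_fixedField_iff] at h5
    exact h5 s (Subgroup.mem_zpowers s)

theorem lift_pt {π : O} [DecidableEq (TF F Ω π)] {R : P27 Ω} (hR : R ∈ Tor π Ω) :
    ∃ R' ∈ Tor π (TF F Ω π), mp (TF F Ω π).val R' = R := by
  by_cases h0 : R = 0
  · exact ⟨0, zero_mem _, by rw [map_zero, h0]⟩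
  · have he : (⟨yc R, (tf_mem hR).2⟩ : TF F Ω π) ^ 2 + ⟨yc R, (tf_mem hR).2⟩ =
        (⟨xc R, (tf_mem hR).1⟩ : TF F Ω π) ^ 3 := Subtype.ext (eqn R)
    have h1 : mp (TF F Ω π).val (pt _ _ he) = R :=
      pt_ext (mp_ne _ (pt_ne _ _ _)) h0 (by rw [xc_mp]; rfl) (by rw [yc_mp]; rfl)
    refine ⟨pt _ _ he, ?_, h1⟩
    rw [← mp_mem_Tor (TF F Ω π).val, h1]
    exact hR

end

/-- The residue field of a prime element. -/
theorem exists_residue {l : ℕ} (hl : l.Prime) {π : O} (hp : Prime π) (hd : π ∣ (l : O)) :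
    ∃ (k : Type) (_ : Field k) (_ : Fintype k) (_ : CharP k l) (q : O →+* k),
      Function.Surjective q ∧ ∀ x, q x = 0 ↔ π ∣ x := by
  have hb : Ideal.span {π} ≠ ⊥ := by
    rw [Ne, Ideal.span_singleton_eq_bot]
    exact hp.ne_zero
  have hpr : (Ideal.span {π}).IsPrime := (Ideal.span_singleton_prime hp.ne_zero).2 hp
  have hm : (Ideal.span {π}).IsMaximal := hpr.isMaximal hb
  have hfin : Finite (O ⧸ Ideal.span {π}) := Ideal.finiteQuotientOfFreeOfNeBot _ hb
  refine ⟨O ⧸ Ideal.span {π}, Ideal.Quotient.field _, Fintype.ofFinite _, ?_,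
    Ideal.Quotient.mk _, Ideal.Quotient.mk_surjective, fun x => ?_⟩
  · rw [CharP.charP_iff_prime_eq_zero hl]
    have h1 : (Ideal.Quotient.mk (Ideal.span {π}) (l : O)) = 0 := by
      rw [Ideal.Quotient.eq_zero_iff_mem, Ideal.mem_span_singleton]
      exact hd
    rw [← h1, map_natCast]
  · rw [Ideal.Quotient.eq_zero_iff_mem, Ideal.mem_span_singleton]

section
variable {Ω : Type} [Field Ω] [DecidableEq Ω] [Algebra F Ω] [IsAlgClosure F Ω]

/-- THE THEOREM OF RUBIN, Kummer form: functions on the π-torsion points with values in L = F(E[π]). -/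
theorem geom_main {l : ℕ} (hl : l.Prime) (h5 : 5 ≤ l) {π : O} (hp : Prime π) (hπ : Prim π)
    (hd : π ∣ (l : O)) [NumberField (TF F Ω π)] (m : P27 Ω → (TF F Ω π)ˣ)
    (hadd : ∀ T ∈ Tor π Ω, ∀ T' ∈ Tor π Ω, ∃ z : (TF F Ω π)ˣ, m (T + T') = m T * m T' * z ^ l)
    (hact : ∀ σ : Ω ≃ₐ[F] Ω, ∀ T ∈ Tor π Ω, ∃ z : (TF F Ω π)ˣ,
      ((m (ac W27 σ T) : TF F Ω π) : Ω) = σ ((m T : TF F Ω π) : Ω) * ((z : TF F Ω π) : Ω) ^ l)
    (hord : ∀ T ∈ Tor π Ω, ∀ w : Pl (TF F Ω π), (l : ℤ) ∣ ord w (m T))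
    (hlev : ∀ T ∈ Tor π Ω, ∀ w : Pl (TF F Ω π),
      w.valuation (TF F Ω π) (algebraMap F (TF F Ω π) (π : F)) < 1 → ∃ z : (TF F Ω π)ˣ,
        w.valuation (TF F Ω π) (((m T * (z ^ l)⁻¹ : (TF F Ω π)ˣ) : TF F Ω π) - 1) ≤
          WithZero.exp (-2 : ℤ)) :
    ∀ T ∈ Tor π Ω, ∃ z : (TF F Ω π)ˣ, m T = z ^ l := by
  classical
  have : Fact l.Prime := ⟨hl⟩
  have halg : IsAlgClosed Ω := IsAlgClosure.isAlgClosed F
  have hint : Algebra.IsAlgebraic F Ω := IsAlgClosure.isAlgebraic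
  have hL : TFld F (TF F Ω π) π := TF_TFld F Ω π hp.ne_zero
  obtain ⟨k, i1, i2, i3, q, hq, hk⟩ := exists_residue hl hp hd
  obtain ⟨χ, hχi, hχ⟩ := exists_chi hp hL q hq hk
  obtain ⟨T₀, hT₀, h0⟩ := exists_tor hp hL.full
  -- the prime above π
  obtain ⟨w, hw⟩ : ∃ w : Pl (TF F Ω π), algebraMap O (𝓞 (TF F Ω π)) π ∈ w.asIdeal := by
    have hb : Ideal.span {π} ≠ ⊥ := by
      rw [Ne, Ideal.span_singleton_eq_bot]
      exact hp.ne_zero
    have hpr : (Ideal.span {π}).IsPrime := (Ideal.span_singleton_prime hp.ne_zero).2 hp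
    obtain ⟨w, hw⟩ := under_exists (L := TF F Ω π) (⟨Ideal.span {π}, hpr, hb⟩ : Pl F)
    refine ⟨w, ?_⟩
    have h1 : (π : O) ∈ (w.under (𝓞 F)).asIdeal := by
      rw [hw]
      exact Ideal.mem_span_singleton_self π
    exact h1
  have hw1 : w.valuation (TF F Ω π) (algebraMap F (TF F Ω π) (π : F)) < 1 := by
    have h1 : algebraMap F (TF F Ω π) (π : F) =
        algebraMap (𝓞 (TF F Ω π)) (TF F Ω π) (algebraMap O (𝓞 (TF F Ω π)) π) := rfl
    rw [h1, HeightOneSpectrum.valuation_lt_one_iff_mem]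
    exact hw
  -- the section of q and the function on k
  let o : k → O := Function.surjInv hq
  have ho : ∀ a, q (o a) = a := Function.surjInv_eq hq
  have hact0 : ∀ c c' : O, q c = q c' → act c T₀ = act c' T₀ := by
    intro c c' h
    have h1 : act (c - c') T₀ = 0 := by
      rw [act_eq_zero hp hT₀ h0, ← hk, map_sub, h, sub_self]
    rw [act_sub] at h1
    exact sub_eq_zero.1 h1
  let P : k → P27 Ω := fun a => mp (TF F Ω π).val (act (o a) T₀)
  have hPt : ∀ a, act (o a) T₀ ∈ Tor π (TF F Ω π) := fun a => by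
    rw [mem_Tor, ← act_mul, mul_comm, act_mul, mem_Tor.1 hT₀, map_zero]
  have hP : ∀ a, P a ∈ Tor π Ω := fun a => (mp_mem_Tor _ _ _).2 (hPt a)
  have hm : EqHom l χ fun a => m (P a) := by
    constructor
    · intro a b
      have h1 : P (a + b) = P a + P b := by
        show mp _ _ = mp _ _ + mp _ _
        rw [← map_add, ← act_add, hact0 (o (a + b)) (o a + o b)]
        rw [map_add, ho, ho, ho]
      show ∃ z, m (P (a + b)) = _
      rw [h1]
      exact hadd _ (hP a) _ (hP b)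
    · intro σ a
      have hn : Normal F Ω := IsAlgClosure.normal F Ω
      obtain ⟨s, hs⟩ : ∃ s : Ω ≃ₐ[F] Ω, ∀ x : TF F Ω π, s (x : Ω) = (σ x : TF F Ω π) :=
        ⟨σ.liftNormal Ω, fun x => σ.liftNormal_commutes Ω x⟩
      have h1 : P (χ σ * a) = ac W27 s (P a) := by
        have h2 : act (o (χ σ * a)) T₀ = sp σ (act (o a) T₀) := by
          rw [hχ σ (o (χ σ)) (ho _) _ (hPt a), ← act_mul, hact0 (o (χ σ * a)) (o (χ σ) * o a)]
          rw [map_mul, ho, ho, ho]
        show mp _ _ = ac W27 s (mp _ _)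
        rw [h2, ac_eq]
        have hR := hPt a
        generalize act (o a) T₀ = R at hR
        by_cases hR0 : R = 0
        · rw [hR0, map_zero, map_zero, map_zero]
        · refine pt_ext (mp_ne _ (sp_ne σ hR0)) (mp_ne _ (mp_ne _ hR0)) ?_ ?_
          · rw [xc_mp, xc_sp, xc_mp, xc_mp]
            exact (hs _).symm
          · rw [yc_mp, yc_sp, yc_mp, yc_mp]
            exact (hs _).symm
      obtain ⟨z, hz⟩ := hact s (P a) (hP a)
      refine ⟨z, ?_⟩
      show m (P (χ σ * a)) = _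
      rw [h1]
      ext
      rw [hz, hs]
      rfl
  intro T hT
  obtain ⟨R, hR, rfl⟩ := lift_pt hT
  obtain ⟨c, hc⟩ := tor_gen hp hL.full hT₀ hR h0
  have h1 : mp (TF F Ω π).val R = P (q c) := by
    show _ = mp _ _
    rw [← hc, hact0 (o (q c)) c (ho _)]
  rw [h1]
  exact geo_main h5 hp hπ hd hL q hq hk χ hχ w hw hm (fun a v => hord _ (hP a) v)
    (fun a => hlev _ (hP a) w hw1) (q c)

end

end H99B
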