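import Mathlib
import Pool.Agent.Lib.H99B.Geom
import Pool.Agent.Lib.H13S.PS
import Pool.Agent.Lib.H13S.S0

/-!
# H99B: the base case of PrimePart: Sel_l(E/F) = 0 for y^2 + y = x^3, F = Q(om), every prime l ≥ 5
-/

open NumberField IsDedekindDomain WeierstrassCurve

namespace H99B

open H55B H55R H28G H13S H55P

/-- The field of the π-torsion. -/
theorem is_tf {Ω : Type} [Field Ω] [DecidableEq Ω] [Algebra F Ω] [IsAlgClosure F Ω] {π : O}
    (hp : Prime π) : IsTF π (TF F Ω π) := by
  have halg : IsAlgClosed Ω := IsAlgClosure.isAlgClosed F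
  have hint : Algebra.IsAlgebraic F Ω := IsAlgClosure.isAlgebraic
  exact ⟨TF_fin F Ω π hp.ne_zero, tf_fix⟩

/-- THE BASE CASE: the l-Selmer group of y^2 + y = x^3 over F = Q(om) is zero for every prime l ≥ 5. -/
theorem selzero_base {Ω : Type} [Field Ω] [DecidableEq Ω] [Algebra F Ω] [IsAlgClosure F Ω] (l : ℕ)
    (hl : l.Prime) (h5 : 5 ≤ l) : SelZero W27 l (⊥ : IntermediateField F Ω) := by
  refine selzero_of l hl h5 fun π c C => ?_
  have hL : IsTF π (TF F Ω π) := is_tf C.pr
  have hfd : FiniteDimensional F (TF F Ω π) := hL.1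
  have hnf : NumberField (TF F Ω π) := NumberField.of_module_finite F _
  obtain ⟨m, hadd, hact, hord, hlev, hfin⟩ := partS C hL
  exact hfin (geom_main hl h5 C.pr C.prim C.dvd m hadd hact hord hlev)

end H99B
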